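import Pool.Agent.R624.BT.Stm

/-!
# Binary subtrees (MP_decccb_lc): piece (D)
-/

set_option autoImplicit false

namespace R624BT

open Set
open scoped ENNReal NNReal

/-- a set that depends only on the first `N` coordinates is open -/
lemma isOpen_of_dep {P : Seq → Prop} (N : ℕ) (h : ∀ x y : Seq, pre x N = pre y N → P x → P y) :
    IsOpen {x : Seq | P x} := by
  rw [isOpen_iff_forall_mem_open]
  intro x hx
  refine ⟨cyl (pre x N), ?_, isOpen_cyl _, mem_cyl_pre x N⟩
  intro y hy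
  have h1 : pre y N = pre x N := by
    have := mem_cyl.1 hy
    rwa [length_pre] at this
  exact h x y h1.symm hx

lemma isClosed_of_dep {P : Seq → Prop} (N : ℕ) (h : ∀ x y : Seq, pre x N = pre y N → P x → P y) :
    IsClosed {x : Seq | P x} := by
  rw [← isOpen_compl_iff]
  have h1 : {x : Seq | P x}ᶜ = {x : Seq | ¬ P x} := rfl
  rw [h1]
  apply isOpen_of_dep N
  intro x y hxy hx hy
  exact hx (h y x hxy.symm hy)

theorem s_D (hhalf : S_half) (hsub : S_sub) : S_D := by
  intro E j ℓ δ hj hE h1 h2 h3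
  have hG := hhalf j ℓ hj
  set G := Gset j ℓ with hGdef
  have hdiff : dimH E ≤ dimH (E \ G) := by
    have h4 : E ⊆ (E \ G) ∪ G := by
      intro x hx
      by_cases hxG : x ∈ G
      · exact Or.inr hxG
      · exact Or.inl ⟨hx, hxG⟩
    have h5 : dimH E ≤ max (dimH (E \ G)) (dimH G) := by
      rw [← dimH_union]
      exact dimH_mono h4
    rcases le_max_iff.1 h5 with h6 | h6
    · exact h6
    · exact absurd (h1.trans_le (h6.trans hG)) (lt_irrefl _)
  rcases eq_or_lt_of_le h3 with h4 | h4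
  · refine ⟨E \ G, diff_subset, disjoint_sdiff_left, ?_⟩
    rw [h4]
    exact le_antisymm (dimH_mono diff_subset) hdiff
  · let C : ℕ → Set Seq := fun m =>
      {x | x ∈ E ∧ ∀ n, m ≤ n → ∃ i, n ≤ i ∧ i < n ^ 2 ∧ i % 2 = j ∧ x i ≠ ℓ (pre x i)}
    have hC : E \ G = ⋃ m, C m := by
      ext x
      simp only [mem_diff, mem_iUnion]
      constructor
      · rintro ⟨hx, hxG⟩
        have hxG' : ¬ ∀ m, ∃ n, m ≤ n ∧ ∀ i, n ≤ i → i < n ^ 2 → i % 2 = j → x i = ℓ (pre x i) :=
          hxG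
        push Not at hxG'
        obtain ⟨m, hm⟩ := hxG'
        exact ⟨m, hx, fun n hn => hm n hn⟩
      · rintro ⟨m, hx, hm⟩
        refine ⟨hx, ?_⟩
        intro hxG
        obtain ⟨n, hn, hn2⟩ := hxG m
        obtain ⟨i, hi1, hi2, hi3, hi4⟩ := hm n hn
        exact hi4 (hn2 i hi1 hi2 hi3)
    have hCd : ∀ m, C m ⊆ E := fun m x hx => hx.1
    have hCG : ∀ m, Disjoint (C m) G := by
      intro m
      rw [Set.disjoint_left]
      intro x hx hxG
      have : x ∈ E \ G := by
        rw [hC]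
        exact mem_iUnion.2 ⟨m, hx⟩
      exact this.2 hxG
    have hCc : ∀ m, IsClosed (C m) := by
      intro m
      have e : C m = E ∩ ⋂ n, {x : Seq | m ≤ n →
          ∃ i, n ≤ i ∧ i < n ^ 2 ∧ i % 2 = j ∧ x i ≠ ℓ (pre x i)} := by
        ext x
        constructor
        · rintro ⟨hx, hm⟩
          exact ⟨hx, mem_iInter.2 fun n => hm n⟩
        · rintro ⟨hx, hm⟩
          exact ⟨hx, fun n => mem_iInter.1 hm n⟩
      rw [e]
      refine hE.inter (isClosed_iInter fun n => ?_)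
      apply isClosed_of_dep (n ^ 2)
      intro x y hxy hx hmn
      obtain ⟨i, hi1, hi2, hi3, hi4⟩ := hx hmn
      refine ⟨i, hi1, hi2, hi3, ?_⟩
      have hxy' := (pre_eq_iff x y (n ^ 2)).1 hxy
      have e1 : x i = y i := hxy' i hi2
      have e2 : pre x i = pre y i := (pre_eq_iff x y i).2 fun k hk => hxy' k (hk.trans hi2)
      rw [← e1, ← e2]
      exact hi4
    have h5 : δ < ⨆ m, dimH (C m) := by
      rw [← dimH_iUnion, ← hC]
      exact h4.trans_le hdiff
    obtain ⟨m, hm⟩ := lt_iSup_iff.1 h5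
    have hδ : δ ≠ ∞ := ne_top_of_lt h4
    lift δ to ℝ≥0 using hδ
    have hpos : 0 < δ := by
      rw [← ENNReal.coe_pos]
      refine lt_of_lt_of_le ?_ h2
      simp
    obtain ⟨D, hD1, _, hD3⟩ := hsub δ (C m) hpos (hCc m) hm
    exact ⟨D, hD1.trans (hCd m), (hCG m).mono_left hD1, hD3⟩

end R624BT
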