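import Mathlib

/-!
# Binary subtrees and games on them (MP_decccb_lc): definitions and basic lemmas
-/

set_option autoImplicit false

namespace R624BT

open Set

/-- Infinite binary sequences. -/
abbrev Seq := ℕ → Bool

/-- The metric `dist x y = (1/2) ^ n`, `n` the first index at which `x` and `y` differ. -/
noncomputable scoped instance instMetric : MetricSpace Seq := PiNat.metricSpace

/-- The prefix of length `n`. -/
def pre (x : Seq) (n : ℕ) : List Bool := (List.range n).map x

/-- A subtree of the binary tree: closed under prefixes, every sequence has a proper extension. -/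
structure IsSubtree (T : Set (List Bool)) : Prop where
  prefix_mem : ∀ σ τ : List Bool, σ <+: τ → τ ∈ T → σ ∈ T
  proper_ext : ∀ σ ∈ T, ∃ τ ∈ T, σ <+: τ ∧ σ ≠ τ

/-- The canopy `[T]`. -/
def canopy (T : Set (List Bool)) : Set Seq := {x | ∀ n, pre x n ∈ T}

/-- The set of infinite sequences that extend `σ`. -/
def cyl (σ : List Bool) : Set Seq := {x | pre x σ.length = σ}

/-- `s` is a strategy in `T` for the player who moves at the positions `n` with `n % 2 = j`. -/
def IsStrategy (T : Set (List Bool)) (j : ℕ) (s : List Bool → Bool) : Prop :=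
  ∀ σ ∈ T, σ.length % 2 = j → σ ++ [s σ] ∈ T

/-- The play `x` is consistent with the strategy `s` of the player who moves at the positions
`n` with `n % 2 = j`. -/
def Consistent (j : ℕ) (s : List Bool → Bool) (x : Seq) : Prop :=
  ∀ n, n % 2 = j → x n = s (pre x n)

/-- Player I (moving at even positions) has a winning strategy in the game `(T, W)`. -/
def WinsI (T : Set (List Bool)) (W : Set Seq) : Prop :=
  ∃ s, IsStrategy T 0 s ∧ ∀ x ∈ canopy T, Consistent 0 s x → x ∈ W

/-- Player II (moving at odd positions) has a winning strategy in the game `(T, W)`. -/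
def WinsII (T : Set (List Bool)) (W : Set Seq) : Prop :=
  ∃ s, IsStrategy T 1 s ∧ ∀ x ∈ canopy T, Consistent 1 s x → x ∉ W

/-! ### Working definitions -/

/-- The node `σ` of `T` is a branching node of `T`. -/
def Branch (T : Set (List Bool)) (σ : List Bool) : Prop :=
  σ ++ [false] ∈ T ∧ σ ++ [true] ∈ T

/-- The sequences that, for infinitely many `n`, follow the rule `ℓ` at all positions `i` of
parity `j` with `n ≤ i < n ^ 2`. -/
def Gset (j : ℕ) (ℓ : List Bool → Bool) : Set Seq :=
  {x | ∀ m, ∃ n, m ≤ n ∧ ∀ i, n ≤ i → i < n ^ 2 → i % 2 = j → x i = ℓ (pre x i)}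

/-- The plays of `T` along which the player of parity `j` has only finitely many choices. -/
def Pset (T : Set (List Bool)) (j : ℕ) : Set Seq :=
  {x | x ∈ canopy T ∧ ∃ n, ∀ i, n ≤ i → i % 2 = j → ¬ Branch T (pre x i)}

/-- the plays of `T` consistent with the strategy `s` of the player of parity `j` -/
def plays (T : Set (List Bool)) (j : ℕ) (s : List Bool → Bool) : Set Seq :=
  {x | x ∈ canopy T ∧ Consistent j s x}

/-- the cost `∑ 2 ^ (- t |τ|)` of a finite set of nodes -/
noncomputable def cost (t : ℝ) (F : Finset (List Bool)) : ℝ :=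
  ∑ τ ∈ F, (1 / 2 : ℝ) ^ (t * (τ.length : ℝ))

/-- the cylinders of the nodes in `F` cover `D` -/
def Covers (D : Set Seq) (F : Finset (List Bool)) : Prop := ∀ x ∈ D, ∃ τ ∈ F, x ∈ cyl τ

/-- `c` is a lower bound of the net content of `D` -/
def LB (t : ℝ) (D : Set Seq) (c : ℝ) : Prop := ∀ F : Finset (List Bool), Covers D F → c ≤ cost t F

/-- `D` is minimal among the closed sets with content at least `c` -/
def Minl (t : ℝ) (D : Set Seq) (c : ℝ) : Prop :=
  IsClosed D ∧ LB t D c ∧ ∀ D' : Set Seq, D' ⊆ D → IsClosed D' → LB t D' c → D' = D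

/-- a good kernel: a nonempty subtree with all its cylinders of dimension more than 1/2 -/
structure Good (K : Set (List Bool)) : Prop where
  sub : IsSubtree K
  root : [] ∈ K
  big : ∀ σ ∈ K, 1 / 2 < dimH (canopy K ∩ cyl σ)

/-! ### Basic lemmas -/

@[simp] lemma length_pre (x : Seq) (n : ℕ) : (pre x n).length = n := by simp [pre]

@[simp] lemma pre_zero (x : Seq) : pre x 0 = [] := by simp [pre]

lemma pre_succ (x : Seq) (n : ℕ) : pre x (n + 1) = pre x n ++ [x n] := by
  simp [pre, List.range_succ]

lemma pre_eq_iff (x y : Seq) (n : ℕ) : pre x n = pre y n ↔ ∀ i < n, x i = y i := by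
  simp only [pre]
  constructor
  · intro h i hi
    have h1 := congrArg (fun l => l[i]?) h
    simpa [hi] using h1
  · intro h
    apply List.map_congr_left
    intro a ha
    exact h a (List.mem_range.1 ha)

lemma pre_prefix (x : Seq) {m n : ℕ} (h : m ≤ n) : pre x m <+: pre x n := by
  induction n with
  | zero => obtain rfl : m = 0 := by omega
            simp
  | succ n ih =>
    rcases Nat.lt_or_ge n m with h1 | h1
    · obtain rfl : m = n + 1 := by omega
      exact List.prefix_refl _
    · exact (ih h1).trans (by rw [pre_succ]; exact List.prefix_append _ _)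

lemma pre_take (x : Seq) {m n : ℕ} (h : m ≤ n) : (pre x n).take m = pre x m := by
  have h1 := pre_prefix x h
  have h2 := List.prefix_iff_eq_take.1 h1
  rw [length_pre] at h2
  exact h2.symm

/-- `σ` is a prefix of `pre x n` iff `σ` has length `≤ n` and `x` is in the cylinder of `σ`. -/
lemma prefix_pre_iff (x : Seq) (σ : List Bool) (n : ℕ) :
    σ <+: pre x n ↔ σ.length ≤ n ∧ x ∈ cyl σ := by
  constructor
  · intro h
    have hl := h.length_le
    rw [length_pre] at hl
    refine ⟨hl, ?_⟩
    have h2 := List.prefix_iff_eq_take.1 h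
    rw [pre_take x hl] at h2
    exact h2.symm
  · rintro ⟨h1, h2⟩
    have h3 : pre x σ.length = σ := h2
    rw [← h3]
    exact pre_prefix x (by simpa using h1)

lemma mem_cyl {x : Seq} {σ : List Bool} : x ∈ cyl σ ↔ pre x σ.length = σ := Iff.rfl

lemma mem_cyl_pre (x : Seq) (n : ℕ) : x ∈ cyl (pre x n) := by
  simp [cyl]

lemma mem_cyl_pre_iff (x y : Seq) (n : ℕ) : x ∈ cyl (pre y n) ↔ ∀ i < n, x i = y i := by
  rw [mem_cyl, length_pre, pre_eq_iff]

lemma cyl_pre_eq (y : Seq) (n : ℕ) : cyl (pre y n) = PiNat.cylinder y n := by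
  ext x
  rw [mem_cyl_pre_iff, PiNat.mem_cylinder_iff]

@[simp] lemma cyl_nil : cyl [] = univ := by
  ext x; simp [cyl]

lemma cyl_anti {σ τ : List Bool} (h : σ <+: τ) : cyl τ ⊆ cyl σ := by
  intro x hx
  have h1 : pre x τ.length = τ := hx
  rw [← h1] at h
  exact ((prefix_pre_iff x σ _).1 h).2

/-- two nodes on the same sequence are comparable -/
lemma comparable {x : Seq} {σ τ : List Bool} (h1 : x ∈ cyl σ) (h2 : x ∈ cyl τ) :
    σ <+: τ ∨ τ <+: σ := by
  have e1 : pre x σ.length = σ := h1
  have e2 : pre x τ.length = τ := h2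
  rcases le_total σ.length τ.length with h | h
  · left; rw [← e1, ← e2]; exact pre_prefix x (by simpa using h)
  · right; rw [← e1, ← e2]; exact pre_prefix x (by simpa using h)

/-- every node has an extension -/
lemma cyl_nonempty (σ : List Bool) : (cyl σ).Nonempty := by
  refine ⟨fun i => σ.getD i false, ?_⟩
  rw [mem_cyl]
  apply List.ext_getElem
  · simp
  · intro i h1 h2
    simp [pre, h2]

lemma cyl_eq_pre (σ : List Bool) : ∃ x : Seq, σ = pre x σ.length := by
  obtain ⟨x, hx⟩ := cyl_nonempty σ
  exact ⟨x, hx.symm⟩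

lemma isOpen_cyl (σ : List Bool) : IsOpen (cyl σ) := by
  obtain ⟨x, hx⟩ := cyl_eq_pre σ
  rw [hx, cyl_pre_eq]
  exact PiNat.isOpen_cylinder _ x _

lemma isClosed_cyl (σ : List Bool) : IsClosed (cyl σ) := by
  have h : cyl σ = ⋂ i ∈ Finset.range σ.length, {x : Seq | x i = σ.getD i false} := by
    ext x
    simp only [mem_cyl, mem_iInter, Finset.mem_range, Set.mem_ofPred_eq]
    constructor
    · intro h i hi
      have h1 := congrArg (fun l => l.getD i false) h
      simpa [pre, hi] using h1
    · intro h
      apply List.ext_getElem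
      · simp
      · intro i h1 h2
        have := h i h2
        simp [pre, h2] at this ⊢
        exact this
  rw [h]
  refine isClosed_biInter fun i _ => ?_
  have : Continuous (fun x : Seq => x i) := continuous_apply i
  exact isClosed_eq this continuous_const

lemma cyl_split (σ : List Bool) : cyl σ = cyl (σ ++ [false]) ∪ cyl (σ ++ [true]) := by
  ext x
  simp only [mem_union, mem_cyl, List.length_append, List.length_singleton, pre_succ]
  constructor
  · intro h
    rw [h]
    cases hx : x σ.length
    · left; rfl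
    · right; rfl
  · rintro (h | h)
    · exact (List.append_inj h (by simp)).1
    · exact (List.append_inj h (by simp)).1

/-- cylinders form a neighbourhood basis -/
lemma exists_cyl_subset {U : Set Seq} (hU : IsOpen U) {x : Seq} (hx : x ∈ U) :
    ∃ n, cyl (pre x n) ⊆ U := by
  obtain ⟨v, ⟨y, n, rfl⟩, hxv, hvU⟩ :=
    (PiNat.isTopologicalBasis_cylinders (fun _ : ℕ => Bool)).exists_subset_of_mem_open hx hU
  refine ⟨n, ?_⟩
  rw [cyl_pre_eq, PiNat.mem_cylinder_iff_eq.1 hxv]
  exact hvU

lemma isClosed_canopy (T : Set (List Bool)) : IsClosed (canopy T) := by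
  rw [← isOpen_compl_iff, isOpen_iff_forall_mem_open]
  intro x hx
  have hx' : ¬ ∀ n, pre x n ∈ T := hx
  push Not at hx'
  obtain ⟨n, hn⟩ := hx'
  refine ⟨cyl (pre x n), ?_, isOpen_cyl _, mem_cyl_pre x n⟩
  intro y hy hyT
  apply hn
  have h1 : pre y n = pre x n := by
    have := mem_cyl.1 hy
    rwa [length_pre] at this
  rw [← h1]
  exact hyT n

/-- the distance of two sequences with the same prefix of length `n` -/
lemma dist_le_iff (x y : Seq) (n : ℕ) : dist x y ≤ (1 / 2) ^ n ↔ pre x n = pre y n := by
  have h := PiNat.mem_cylinder_iff_dist_le (E := fun _ => Bool) (x := y) (y := x) (n := n)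
  rw [← h, ← cyl_pre_eq, mem_cyl_pre_iff, pre_eq_iff]

/-- a subtree has a play through each node; with a rule telling where to go -/
lemma exists_play {T : Set (List Bool)} (r : List Bool → Bool)
    (hr : ∀ σ ∈ T, σ ++ [r σ] ∈ T) (hp : ∀ σ τ : List Bool, σ <+: τ → τ ∈ T → σ ∈ T)
    (σ : List Bool) (hσ : σ ∈ T) :
    ∃ x ∈ canopy T, x ∈ cyl σ ∧ ∀ n, σ.length ≤ n → x n = r (pre x n) := by
  obtain ⟨nx, h0, hs⟩ : ∃ nx : ℕ → List Bool, nx 0 = σ ∧ ∀ k, nx (k + 1) = nx k ++ [r (nx k)] :=
    ⟨fun k => Nat.rec σ (fun _ τ => τ ++ [r τ]) k, rfl, fun k => rfl⟩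
  have hT : ∀ k, nx k ∈ T := by
    intro k
    induction k with
    | zero => rw [h0]; exact hσ
    | succ k ih => rw [hs]; exact hr _ ih
  have hlen : ∀ k, (nx k).length = σ.length + k := by
    intro k
    induction k with
    | zero => simp [h0]
    | succ k ih => rw [hs, List.length_append, ih]; simp; omega
  let x : Seq := fun n => (nx (n + 1)).getD n false
  have hmono : ∀ k m, k ≤ m → nx k <+: nx m := by
    intro k m hkm
    induction m with
    | zero => obtain rfl : k = 0 := by omega
              exact List.prefix_refl _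
    | succ m ih =>
      rcases Nat.lt_or_ge m k with h | h
      · obtain rfl : k = m + 1 := by omega
        exact List.prefix_refl _
      · exact (ih h).trans (by rw [hs]; exact List.prefix_append _ _)
  have hx : ∀ k, pre x (nx k).length = nx k := by
    intro k
    apply List.ext_getElem
    · simp
    · intro i h1 h2
      have e1 : (pre x (nx k).length)[i]'h1 = x i := by simp [pre]
      rw [e1]
      change (nx (i + 1)).getD i false = _
      have h3 : i < (nx (i + 1)).length := by rw [hlen]; omega
      rw [List.getD_eq_getElem _ _ h3]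
      rcases le_total (i + 1) k with h | h
      · exact (hmono _ _ h).getElem h3
      · exact ((hmono _ _ h).getElem h2).symm
  refine ⟨x, ?_, ?_, ?_⟩
  · intro n
    refine hp (pre x n) (nx n) ?_ (hT n)
    rw [← hx n]
    exact pre_prefix x (by rw [hlen]; omega)
  · have := hx 0
    rw [h0] at this
    exact this
  · intro n hn
    obtain ⟨k, rfl⟩ := Nat.exists_eq_add_of_le hn
    have h1 := hx (k + 1)
    have h2 := hx k
    rw [hlen, hs, ← Nat.add_assoc, pre_succ] at h1
    rw [hlen] at h2
    rw [h2] at h1
    have h3 := (List.append_inj h1 rfl).2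
    rw [h2]
    simpa using h3

end R624BT
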