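import Pool.Agent.R624.BT.Stm

/-!
# Binary subtrees (MP_decccb_lc): piece (fine)
-/

set_option autoImplicit false

namespace R624BT

open Set

namespace FineAux

/-- the cost of one node -/
noncomputable def w (t : ℝ) (τ : List Bool) : ℝ := (1 / 2 : ℝ) ^ (t * (τ.length : ℝ))

lemma w_pos (t : ℝ) (τ : List Bool) : 0 < w t τ := Real.rpow_pos_of_pos (by norm_num) _

lemma cost_eq (t : ℝ) (F : Finset (List Bool)) : cost t F = ∑ τ ∈ F, w t τ := rfl

lemma cost_union_le (t : ℝ) (F G : Finset (List Bool)) :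
    cost t (F ∪ G) ≤ cost t F + cost t G := by
  have h := Finset.sum_union_inter (s₁ := F) (s₂ := G) (f := w t)
  have h2 : 0 ≤ ∑ τ ∈ F ∩ G, w t τ := Finset.sum_nonneg (fun τ _ => (w_pos t τ).le)
  simp only [cost_eq]
  linarith

lemma cost_insert_le (t : ℝ) (ρ : List Bool) (F : Finset (List Bool)) :
    cost t (insert ρ F) ≤ w t ρ + cost t F := by
  have h := cost_union_le t {ρ} F
  have h2 : cost t {ρ} = w t ρ := by simp [cost_eq]
  rw [Finset.insert_eq]
  linarith

lemma cost_biUnion_le (t : ℝ) (F : Finset (List Bool)) (G : List Bool → Finset (List Bool)) :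
    cost t (F.biUnion G) ≤ ∑ σ ∈ F, cost t (G σ) := by
  classical
  induction F using Finset.induction_on with
  | empty => simp [cost_eq]
  | insert a s ha ih =>
    rw [Finset.biUnion_insert, Finset.sum_insert ha]
    exact (cost_union_le t _ _).trans (by linarith)

lemma small (t : ℝ) (ht : 0 < t) (ε : ℝ) (hε : 0 < ε) (k : ℕ) :
    ∃ m, k ≤ m ∧ ∀ x : Seq, w t (pre x m) ≤ ε := by
  have h0 : (0 : ℝ) < (1 / 2 : ℝ) ^ t := Real.rpow_pos_of_pos (by norm_num) _
  have h1 : (1 / 2 : ℝ) ^ t < 1 := Real.rpow_lt_one (by norm_num) (by norm_num) ht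
  obtain ⟨m, hm⟩ := exists_pow_lt_of_lt_one hε h1
  refine ⟨max k m, le_max_left _ _, fun x => ?_⟩
  have e : w t (pre x (max k m)) = ((1 / 2 : ℝ) ^ t) ^ (max k m) := by
    unfold w
    rw [length_pre, Real.rpow_mul (by norm_num), Real.rpow_natCast]
  rw [e]
  exact (pow_le_pow_of_le_one h0.le h1.le (le_max_right k m)).trans hm.le

lemma closed_diff {D : Set Seq} (hD : IsClosed D) (ρ : List Bool) : IsClosed (D \ cyl ρ) := by
  rw [sdiff_eq]
  exact hD.inter (isOpen_cyl ρ).isClosed_compl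

lemma ne_of_minl {t : ℝ} {D : Set Seq} {c : ℝ} (h : Minl t D c) {x : Seq} (hx : x ∈ D) (m : ℕ)
    (hLB : LB t (D \ cyl (pre x m)) c) : False := by
  have h1 := h.2.2 (D \ cyl (pre x m)) sdiff_subset (closed_diff h.1 _) hLB
  rw [← h1] at hx
  exact hx.2 (mem_cyl_pre x m)

/-- (1) -/
lemma step1 {t : ℝ} {D : Set Seq} {c : ℝ} (ht : 0 < t) (hc : 0 < c) (h : Minl t D c) (ε : ℝ)
    (hε : 0 < ε) : ∃ F : Finset (List Bool), Covers D F ∧ cost t F ≤ c + ε := by
  by_contra hcon
  push Not at hcon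
  have hne : D.Nonempty := by
    by_contra hD
    rw [not_nonempty_iff_eq_empty] at hD
    have h1 := h.2.1 ∅ (by intro x hx; rw [hD] at hx; exact hx.elim)
    simp [cost_eq] at h1
    linarith
  obtain ⟨x, hx⟩ := hne
  obtain ⟨m, -, hm⟩ := small t ht ε hε 0
  apply ne_of_minl h hx m
  intro F hF
  have hcov : Covers D (insert (pre x m) F) := by
    intro y hy
    by_cases hyc : y ∈ cyl (pre x m)
    · exact ⟨_, Finset.mem_insert_self _ _, hyc⟩
    · obtain ⟨τ, hτ, hyτ⟩ := hF y ⟨hy, hyc⟩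
      exact ⟨τ, Finset.mem_insert_of_mem hτ, hyτ⟩
  have h1 := hcon _ hcov
  have h2 := cost_insert_le t (pre x m) F
  have h3 := hm x
  linarith

/-- (2) -/
lemma step2 {t : ℝ} {D : Set Seq} {c : ℝ} (ht : 0 < t) (h : Minl t D c) (σ : List Bool)
    {x : Seq} (hx : x ∈ D) (hxσ : x ∈ cyl σ) (ε : ℝ) (hε : 0 < ε) :
    ∃ G : Finset (List Bool), (∀ τ ∈ G, σ.length < τ.length) ∧
      (∀ y ∈ D, y ∈ cyl σ → ∃ τ ∈ G, y ∈ cyl τ) ∧ cost t G ≤ w t σ + ε := by
  classical
  by_contra hcon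
  push Not at hcon
  obtain ⟨m, hm1, hm⟩ := small t ht ε hε (σ.length + 1)
  have hσρ : σ <+: pre x m := (prefix_pre_iff x σ m).2 ⟨by omega, hxσ⟩
  apply ne_of_minl h hx m
  intro F hF
  by_cases hA : ∃ τ ∈ F, τ <+: σ
  · obtain ⟨τ, hτ, hτσ⟩ := hA
    apply h.2.1
    intro y hy
    by_cases hyc : y ∈ cyl (pre x m)
    · exact ⟨τ, hτ, cyl_anti (hτσ.trans hσρ) hyc⟩
    · exact hF y ⟨hy, hyc⟩
  · push Not at hA
    set F1 := F.filter (fun τ => σ <+: τ) with hF1
    set F2 := F.filter (fun τ => ¬ σ <+: τ) with hF2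
    have hG1 : ∀ τ ∈ insert (pre x m) F1, σ.length < τ.length := by
      intro τ hτ
      rw [Finset.mem_insert] at hτ
      rcases hτ with rfl | hτ
      · rw [length_pre]; omega
      · rw [hF1, Finset.mem_filter] at hτ
        rcases lt_or_eq_of_le hτ.2.length_le with h1 | h1
        · exact h1
        · exfalso
          have h2 := hτ.2.eq_of_length h1
          apply hA τ hτ.1
          rw [h2]
    have hG2 : ∀ y ∈ D, y ∈ cyl σ → ∃ τ ∈ insert (pre x m) F1, y ∈ cyl τ := by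
      intro y hy hyσ
      by_cases hyc : y ∈ cyl (pre x m)
      · exact ⟨_, Finset.mem_insert_self _ _, hyc⟩
      · obtain ⟨τ, hτ, hyτ⟩ := hF y ⟨hy, hyc⟩
        refine ⟨τ, Finset.mem_insert_of_mem ?_, hyτ⟩
        rw [hF1, Finset.mem_filter]
        refine ⟨hτ, ?_⟩
        rcases comparable hyσ hyτ with h1 | h1
        · exact h1
        · exact absurd h1 (hA τ hτ)
    have h1 := hcon _ hG1 hG2
    have h2 := cost_insert_le t (pre x m) F1
    have h3 := hm x
    have hcov : Covers D (insert σ F2) := by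
      intro y hy
      by_cases hyσ : y ∈ cyl σ
      · exact ⟨σ, Finset.mem_insert_self _ _, hyσ⟩
      · have hyc : y ∉ cyl (pre x m) := fun hh => hyσ (cyl_anti hσρ hh)
        obtain ⟨τ, hτ, hyτ⟩ := hF y ⟨hy, hyc⟩
        refine ⟨τ, Finset.mem_insert_of_mem ?_, hyτ⟩
        rw [hF2, Finset.mem_filter]
        exact ⟨hτ, fun hh => hyσ (cyl_anti hh hyτ)⟩
    have h4 := h.2.1 _ hcov
    have h5 := cost_insert_le t σ F2
    have h6 : cost t F1 + cost t F2 = cost t F := by
      simp only [cost_eq]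
      exact Finset.sum_filter_add_sum_filter_not F (fun τ => σ <+: τ) (w t)
    linarith

end FineAux

open FineAux

theorem s_fine : S_fine := by
  classical
  intro t D c ht hc h n
  induction n with
  | zero =>
    intro ε hε
    obtain ⟨F, h1, h2⟩ := step1 ht hc h ε hε
    exact ⟨F, h1, fun τ _ => Nat.zero_le _, h2⟩
  | succ n ih =>
    intro ε hε
    obtain ⟨F, hF1, hF2, hF3⟩ := ih (ε / 2) (by linarith)
    have hcard : (0 : ℝ) < (F.card : ℝ) + 1 := by positivity
    have hε' : 0 < ε / (2 * ((F.card : ℝ) + 1)) := by positivity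
    have key : ∀ σ ∈ F, ∃ G : Finset (List Bool), (∀ τ ∈ G, n + 1 ≤ τ.length) ∧
        (∀ y ∈ D, y ∈ cyl σ → ∃ τ ∈ G, y ∈ cyl τ) ∧
        cost t G ≤ w t σ + ε / (2 * ((F.card : ℝ) + 1)) := by
      intro σ hσ
      by_cases h1 : n + 1 ≤ σ.length
      · refine ⟨{σ}, ?_, ?_, ?_⟩
        · intro τ hτ
          rw [Finset.mem_singleton] at hτ
          rw [hτ]; exact h1
        · intro y _ hy
          exact ⟨σ, Finset.mem_singleton_self _, hy⟩
        · simp only [cost_eq, Finset.sum_singleton]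
          linarith
      · by_cases h2 : ∃ x ∈ D, x ∈ cyl σ
        · obtain ⟨x, hx, hxσ⟩ := h2
          obtain ⟨G, hG1, hG2, hG3⟩ := step2 ht h σ hx hxσ _ hε'
          refine ⟨G, ?_, hG2, hG3⟩
          intro τ hτ
          have h3 := hG1 τ hτ
          have h4 := hF2 σ hσ
          omega
        · refine ⟨∅, ?_, ?_, ?_⟩
          · intro τ hτ
            exact absurd hτ (Finset.notMem_empty _)
          · intro y hy hyσ
            exact absurd ⟨y, hy, hyσ⟩ h2
          · simp only [cost_eq, Finset.sum_empty]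
            have := w_pos t σ
            linarith
    choose! G hG1 hG2 hG3 using key
    refine ⟨F.biUnion G, ?_, ?_, ?_⟩
    · intro y hy
      obtain ⟨σ, hσ, hyσ⟩ := hF1 y hy
      obtain ⟨τ, hτ, hyτ⟩ := hG2 σ hσ y hy hyσ
      exact ⟨τ, Finset.mem_biUnion.2 ⟨σ, hσ, hτ⟩, hyτ⟩
    · intro τ hτ
      obtain ⟨σ, hσ, hτσ⟩ := Finset.mem_biUnion.1 hτ
      exact hG1 σ hσ τ hτσ
    · calc cost t (F.biUnion G) ≤ ∑ σ ∈ F, cost t (G σ) := cost_biUnion_le t F G
        _ ≤ ∑ σ ∈ F, (w t σ + ε / (2 * ((F.card : ℝ) + 1))) := Finset.sum_le_sum hG3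
        _ = cost t F + F.card * (ε / (2 * ((F.card : ℝ) + 1))) := by
            rw [Finset.sum_add_distrib, Finset.sum_const, nsmul_eq_mul, cost_eq]
        _ ≤ (c + ε / 2) + ε / 2 := by
            have h5 : (F.card : ℝ) * (ε / (2 * ((F.card : ℝ) + 1))) ≤ ε / 2 := by
              rw [mul_div_assoc', div_le_div_iff₀ (by positivity) (by norm_num)]
              nlinarith
            linarith
        _ = c + ε := by ring

end R624BT
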