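import Pool.Agent.R624.BT.Stm

/-!
# MP_decccb_lc: the sets `Gset j ℓ` have dimension at most 1/2
-/

set_option autoImplicit false

namespace R624BT

open Set Topology
open scoped ENNReal NNReal

/-- the sequences which obey the rule at stage `n` -/
def Rule (j : ℕ) (ℓ : List Bool → Bool) (n : ℕ) : Set Seq :=
  {x | ∀ i, n ≤ i → i < n ^ 2 → i % 2 = j → x i = ℓ (pre x i)}

/-- the free positions -/
def Free (j n : ℕ) : Finset ℕ := (Finset.range (n ^ 2)).filter fun i => i < n ∨ i % 2 ≠ j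

lemma card_free (j n : ℕ) (hj : j < 2) : (Free j n).card ≤ n + (n ^ 2 / 2 + 1) := by
  have h1 : Free j n ⊆ Finset.range n ∪
      ((Finset.range (n ^ 2)).filter fun i => i % 2 ≠ j) := by
    intro i hi
    simp only [Free, Finset.mem_filter, Finset.mem_range, Finset.mem_union] at hi ⊢
    tauto
  refine (Finset.card_le_card h1).trans ((Finset.card_union_le _ _).trans ?_)
  rw [Finset.card_range]
  refine Nat.add_le_add_left ?_ _
  have h2 : ((Finset.range (n ^ 2)).filter fun i => i % 2 ≠ j).card ≤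
      (Finset.range (n ^ 2 / 2 + 1)).card := by
    apply Finset.card_le_card_of_injOn (fun i => i / 2)
    · intro i hi
      simp only [Finset.coe_filter, Finset.mem_range, Set.mem_ofPred_eq] at hi
      simp only [Finset.coe_range, Set.mem_Iio]
      have := Nat.div_le_div_right (c := 2) hi.1.le
      omega
    · intro a ha b hb hab
      simp only [Finset.coe_filter, Finset.mem_range, Set.mem_ofPred_eq] at ha hb
      simp only at hab
      omega
  rwa [Finset.card_range] at h2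

lemma pre_eq_of_free (j : ℕ) (ℓ : List Bool → Bool) (n : ℕ) (x y : Seq) (hx : x ∈ Rule j ℓ n)
    (hy : y ∈ Rule j ℓ n) (h : ∀ i ∈ Free j n, x i = y i) : pre x (n ^ 2) = pre y (n ^ 2) := by
  rw [pre_eq_iff]
  intro i
  induction i using Nat.strong_induction_on with
  | _ i ih =>
    intro hi
    by_cases hf : i ∈ Free j n
    · exact h i hf
    · simp only [Free, Finset.mem_filter, Finset.mem_range, not_and, not_or, not_lt, ne_eq,
        not_not] at hf
      obtain ⟨h1, h2⟩ := hf hi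
      rw [hx i h1 hi h2, hy i h1 hi h2]
      congr 1
      rw [pre_eq_iff]
      intro k hk
      exact ih k hk (hk.trans hi)

/-- the nodes of length `n ^ 2` -/
def Nd (j : ℕ) (ℓ : List Bool → Bool) (n : ℕ) : Set (List Bool) :=
  {τ | ∃ x ∈ Rule j ℓ n, τ = pre x (n ^ 2)}

lemma cost_nd (j : ℕ) (ℓ : List Bool → Bool) (n : ℕ) (hj : j < 2) (t : ℝ) :
    ∑' τ : Nd j ℓ n, ENNReal.ofReal ((1 / 2 : ℝ) ^ (t * ((τ : List Bool).length : ℝ))) ≤
      ENNReal.ofReal ((2 : ℝ) ^ ((n : ℝ) + n ^ 2 / 2 + 1 - t * n ^ 2)) := by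
  have hlen : ∀ τ : Nd j ℓ n, (τ : List Bool).length = n ^ 2 := by
    rintro ⟨τ, x, hx, rfl⟩
    simp
  choose x hx hxe using fun τ : Nd j ℓ n => τ.2
  let g : Nd j ℓ n → (Free j n → Bool) := fun τ i => x τ i
  have hg : Function.Injective g := by
    intro a b hab
    have h1 : pre (x a) (n ^ 2) = pre (x b) (n ^ 2) := by
      apply pre_eq_of_free j ℓ n _ _ (hx a) (hx b)
      intro i hi
      exact congrFun hab ⟨i, hi⟩
    apply Subtype.ext
    rw [hxe a, hxe b, h1]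
  have h1 : ∑' τ : Nd j ℓ n, ENNReal.ofReal ((1 / 2 : ℝ) ^ (t * ((τ : List Bool).length : ℝ))) =
      ∑' τ : Nd j ℓ n, (fun _ : Free j n → Bool => ENNReal.ofReal ((1 / 2 : ℝ) ^ (t * (n : ℝ) ^ 2)))
        (g τ) := by
    refine tsum_congr fun τ => ?_
    rw [hlen τ]
    push_cast
    rfl
  rw [h1]
  refine (ENNReal.tsum_comp_le_tsum_of_injective hg
    (fun _ : Free j n → Bool => ENNReal.ofReal ((1 / 2 : ℝ) ^ (t * (n : ℝ) ^ 2)))).trans ?_
  rw [tsum_fintype, Finset.sum_const, Finset.card_univ, Fintype.card_fun, Fintype.card_bool,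
    Fintype.card_coe, nsmul_eq_mul]
  have h2 : ((2 ^ (Free j n).card : ℕ) : ℝ≥0∞) = ENNReal.ofReal ((2 : ℝ) ^ (Free j n).card) := by
    rw [ENNReal.ofReal_pow (by norm_num)]
    push_cast
    congr 1
    simp
  rw [h2, ← ENNReal.ofReal_mul (by positivity)]
  apply ENNReal.ofReal_le_ofReal
  have h3 : (1 / 2 : ℝ) ^ (t * (n : ℝ) ^ 2) = (2 : ℝ) ^ (-(t * (n : ℝ) ^ 2)) := by
    rw [Real.rpow_neg (by norm_num), one_div, Real.inv_rpow (by norm_num)]
  rw [h3, ← Real.rpow_natCast, ← Real.rpow_add (by norm_num)]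
  apply Real.rpow_le_rpow_of_exponent_le (by norm_num)
  have h4 := card_free j n hj
  have h5 : ((Free j n).card : ℝ) ≤ (n : ℝ) + ((n : ℝ) ^ 2 / 2 + 1) := by
    have h6 : ((Free j n).card : ℝ) ≤ ((n + (n ^ 2 / 2 + 1) : ℕ) : ℝ) := by exact_mod_cast h4
    refine h6.trans ?_
    push_cast
    have h7 : ((n ^ 2 / 2 : ℕ) : ℝ) ≤ ((n ^ 2 : ℕ) : ℝ) / ((2 : ℕ) : ℝ) := Nat.cast_div_le
    push_cast at h7
    linarith
  linarith

lemma sum_ne_top (t : ℝ) (ht : 1 / 2 < t) :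
    ∑' n : ℕ, ENNReal.ofReal ((2 : ℝ) ^ ((n : ℝ) + n ^ 2 / 2 + 1 - t * n ^ 2)) ≠ ∞ := by
  set s := t - 1 / 2 with hs
  have hs0 : 0 < s := by linarith
  have h1 : ∀ n : ℕ, (2 : ℝ) ^ ((n : ℝ) + n ^ 2 / 2 + 1 - t * n ^ 2) ≤
      (2 : ℝ) ^ (1 + 1 / s) * (1 / 2) ^ n := by
    intro n
    have e : ((1 : ℝ) / 2) ^ n = (2 : ℝ) ^ (-(n : ℝ)) := by
      rw [Real.rpow_neg (by norm_num), Real.rpow_natCast, one_div, inv_pow]
    rw [e, ← Real.rpow_add (by norm_num)]
    apply Real.rpow_le_rpow_of_exponent_le (by norm_num)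
    have h2 : 2 * (n : ℝ) - s * n ^ 2 ≤ 1 / s := by
      rw [le_div_iff₀ hs0]
      nlinarith [sq_nonneg (s * n - 1)]
    have h3 : t = s + 1 / 2 := by rw [hs]; ring
    rw [h3]
    nlinarith
  have h2 : Summable fun n : ℕ => (2 : ℝ) ^ ((n : ℝ) + n ^ 2 / 2 + 1 - t * n ^ 2) := by
    refine Summable.of_nonneg_of_le (fun n => by positivity) h1 ?_
    exact (summable_geometric_two).mul_left _
  rw [← ENNReal.ofReal_tsum_of_nonneg (fun n => by positivity) h2]
  exact ENNReal.ofReal_ne_top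

theorem s_half (hnet : S_net) : S_half := by
  intro j ℓ hj
  have key : ∀ t : ℝ≥0, (1 / 2 : ℝ≥0) < t → dimH (Gset j ℓ) ≤ t := by
    intro t ht
    have ht' : (1 / 2 : ℝ) < (t : ℝ) := by exact_mod_cast ht
    refine hnet t (Gset j ℓ) _ (sum_ne_top t ht') fun m => ?_
    refine ⟨⋃ k, Nd j ℓ (k + m + 1), ?_, ?_, ?_⟩
    · intro τ hτ
      obtain ⟨k, x, -, rfl⟩ := mem_iUnion.1 hτ
      rw [length_pre]
      have := Nat.le_self_pow (n := 2) (by norm_num) (k + m + 1)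
      omega
    · intro x hx
      obtain ⟨n, hn, hr⟩ := hx (m + 1)
      obtain ⟨k, rfl⟩ : ∃ k, n = k + m + 1 := ⟨n - m - 1, by omega⟩
      exact ⟨pre x ((k + m + 1) ^ 2), mem_iUnion.2 ⟨k, x, hr, rfl⟩, mem_cyl_pre x _⟩
    · refine (ENNReal.tsum_iUnion_le_tsum (fun τ : List Bool =>
        ENNReal.ofReal ((1 / 2 : ℝ) ^ ((t : ℝ) * (τ.length : ℝ)))) _).trans ?_
      refine (ENNReal.tsum_le_tsum fun k => cost_nd j ℓ (k + m + 1) hj t).trans ?_
      have hinj : Function.Injective (fun k : ℕ => k + m + 1) := by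
        intro a b hab
        simp only at hab
        omega
      exact ENNReal.tsum_comp_le_tsum_of_injective hinj
        (fun n : ℕ => ENNReal.ofReal ((2 : ℝ) ^ ((n : ℝ) + n ^ 2 / 2 + 1 - t * n ^ 2)))
  refine le_of_forall_gt_imp_ge_of_dense fun a ha => ?_
  obtain ⟨b, hb1, hb2⟩ := ENNReal.lt_iff_exists_nnreal_btwn.1 ha
  refine (key b ?_).trans hb2.le
  have : ((1 / 2 : ℝ≥0) : ℝ≥0∞) < b := by
    rw [ENNReal.coe_div (by norm_num)]
    simpa using hb1
  exact_mod_cast this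

end R624BT
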