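import Pool.Agent.R624.BT.Stm

/-!
# Binary subtrees (MP_decccb_lc): plays of a strategy in a good kernel
-/

set_option autoImplicit false

namespace R624BT

open Set Cardinal
open scoped ENNReal NNReal

lemma child {K : Set (List Bool)} (hK : IsSubtree K) {σ : List Bool} (hσ : σ ∈ K) :
    ∃ b, σ ++ [b] ∈ K := by
  obtain ⟨τ, hτ, ⟨ρ, rfl⟩, hne⟩ := hK.proper_ext σ hσ
  cases ρ with
  | nil => simp at hne
  | cons b ρ => exact ⟨b, hK.prefix_mem _ _ ⟨ρ, by simp⟩ hτ⟩

lemma eq_of_not_branch' {K : Set (List Bool)} {σ : List Bool} {a b : Bool}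
    (h : ¬ Branch K σ) (ha : σ ++ [a] ∈ K) (hb : σ ++ [b] ∈ K) : a = b := by
  unfold Branch at h
  cases a <;> cases b <;> simp_all

/-- continue a play in `K` from the node `σ`, following `s` at parity `j` and `ℓ` otherwise -/
lemma cont {K : Set (List Bool)} (hK : IsSubtree K) {j : ℕ} {s : List Bool → Bool}
    (hs : IsStrategy K j s) (ℓ : List Bool → Bool)
    (hℓ : ∀ σ ∈ K, σ.length % 2 ≠ j → σ ++ [ℓ σ] ∈ K) (σ : List Bool) (hσ : σ ∈ K)
    (x : Seq) (hx : ∀ i, i < σ.length → i % 2 = j → x i = s (pre x i)) (hxσ : x ∈ cyl σ) :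
    ∃ y ∈ plays K j s, y ∈ cyl σ ∧ (∀ i, σ.length ≤ i → i % 2 ≠ j → y i = ℓ (pre y i)) := by
  classical
  let r : List Bool → Bool := fun σ => if σ.length % 2 = j then s σ else ℓ σ
  have hr : ∀ σ ∈ K, σ ++ [r σ] ∈ K := by
    intro σ hσ
    simp only [r]
    split_ifs with h
    · exact hs σ hσ h
    · exact hℓ σ hσ h
  obtain ⟨y, hy1, hy2, hy3⟩ := exists_play r hr hK.prefix_mem σ hσ
  have e : pre y σ.length = pre x σ.length := by
    rw [mem_cyl.1 hy2, mem_cyl.1 hxσ]
  refine ⟨y, ⟨hy1, ?_⟩, hy2, ?_⟩
  · intro n hn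
    rcases Nat.lt_or_ge n σ.length with h | h
    · have e2 : pre y n = pre x n := by
        rw [pre_eq_iff] at e ⊢
        exact fun i hi => e i (by omega)
      rw [e2, (pre_eq_iff y x _).1 e n h]
      exact hx n h hn
    · rw [hy3 n h]
      simp [r, hn]
  · intro i hi hij
    rw [hy3 i hi]
    simp [r, hij]

open Classical in
/-- some child -/
noncomputable def anyc (K : Set (List Bool)) (σ : List Bool) : Bool :=
  if σ ++ [false] ∈ K then false else true

lemma anyc_mem {K : Set (List Bool)} (hK : IsSubtree K) {σ : List Bool} (hσ : σ ∈ K) :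
    σ ++ [anyc K σ] ∈ K := by
  obtain ⟨b, hb⟩ := child hK hσ
  unfold anyc
  split_ifs with h
  · exact h
  · cases b
    · exact absurd hb h
    · exact hb

lemma pre_of_cyl {x y : Seq} {n : ℕ} (h : y ∈ cyl (pre x n)) : pre y n = pre x n := by
  have := mem_cyl.1 h
  rwa [length_pre] at this

theorem s_iso : S_iso := by
  classical
  intro K j s hK hj hs hnp
  have hKs := hK.sub
  refine ⟨?_, ?_, ?_⟩
  · obtain ⟨y, hy, -, -⟩ := cont hKs hs (anyc K) (fun σ hσ _ => anyc_mem hKs hσ) [] hK.root
      (fun _ => false) (by intro i hi; simp at hi) (by simp)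
    exact ⟨y, hy⟩
  · have h : plays K j s = canopy K ∩ ⋂ n : ℕ, {x : Seq | n % 2 = j → x n = s (pre x n)} := by
      ext x
      simp only [plays, Consistent, mem_inter_iff, mem_iInter, Set.mem_ofPred_eq]
    rw [h]
    refine (isClosed_canopy K).inter (isClosed_iInter fun n => ?_)
    rw [← isOpen_compl_iff, isOpen_iff_forall_mem_open]
    intro x hx
    refine ⟨cyl (pre x (n + 1)), ?_, isOpen_cyl _, mem_cyl_pre x _⟩
    intro y hy hy2
    apply hx
    intro hn
    have e := pre_of_cyl hy
    have e1 := (pre_eq_iff _ _ _).1 e n (by omega)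
    have e2 : pre y n = pre x n := by
      rw [pre_eq_iff] at e ⊢
      exact fun i hi => e i (by omega)
    have h3 := hy2 hn
    rw [e1, e2] at h3
    exact h3
  · intro x hx n
    have h1 : ¬ ∃ N, ∀ i, N ≤ i → i % 2 = 1 - j → ¬ Branch K (pre x i) := by
      intro h
      exact hnp x hx ⟨hx.1, h⟩
    push Not at h1
    obtain ⟨i, hi, hij, hbr⟩ := h1 n
    have hmem : pre x i ++ [!x i] ∈ K := by
      cases x i
      · exact hbr.2
      · exact hbr.1
    let x' : Seq := fun k => if k = i then !x i else x k
    have hx' : pre x' (i + 1) = pre x i ++ [!x i] := by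
      rw [pre_succ]
      have e1 : pre x' i = pre x i := by
        rw [pre_eq_iff]
        intro k hk
        simp only [x']
        rw [if_neg (by omega)]
      rw [e1]
      simp [x']
    obtain ⟨y, hy, hyc, -⟩ := cont hKs hs (anyc K) (fun σ hσ _ => anyc_mem hKs hσ)
      (pre x i ++ [!x i]) hmem x' (by
        intro k hk hkj
        rw [List.length_append, length_pre, List.length_singleton] at hk
        have hki : k ≠ i := by
          rintro rfl
          omega
        have hk' : k < i := by omega
        have e1 : pre x' k = pre x k := by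
          rw [pre_eq_iff]
          intro l hl
          simp only [x']
          rw [if_neg (by omega)]
        rw [e1]
        simp only [x']
        rw [if_neg hki]
        exact hx.2 k hkj) (by rw [← hx']; exact mem_cyl_pre x' _)
    rw [← hx'] at hyc
    have e := pre_of_cyl hyc
    have e1 := (pre_eq_iff _ _ _).1 e
    refine ⟨y, hy, ?_, ?_⟩
    · intro h
      have h2 := e1 i (by omega)
      rw [h] at h2
      simp [x'] at h2
    · rw [pre_eq_iff]
      intro k hk
      rw [e1 k (by omega)]
      simp only [x']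
      rw [if_neg (by omega)]

theorem s_dG : S_dG := by
  classical
  intro K j s ℓ hK hj hs hℓ m x hx N
  have hKs := hK.sub
  obtain ⟨y, hy, hyc, hy2⟩ := cont hKs hs ℓ (fun σ hσ h => hℓ σ hσ (by omega))
    (pre x (max m N)) (hx.1 _) x (fun i _ hij => hx.2 i hij) (mem_cyl_pre x _)
  rw [length_pre] at hy2
  have e := pre_of_cyl hyc
  refine ⟨y, hy, ?_, max m N, le_max_left _ _, fun i hi _ hij => hy2 i hi (by omega)⟩
  rw [pre_eq_iff] at e ⊢
  exact fun i hi => e i (lt_of_lt_of_le hi (le_max_right _ _))

theorem s_dP (hhalf : S_half) : S_dP := by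
  classical
  intro K j s hK hj hs m x hx N
  have hKs := hK.sub
  by_contra hcon
  push Not at hcon
  have hbig := hK.big (pre x (max m N)) (hx.1 _)
  have hsub : canopy K ∩ cyl (pre x (max m N)) ⊆ Gset j s := by
    rintro z ⟨hz, hzc⟩
    have e := pre_of_cyl hzc
    have key : ∀ i, i % 2 = j → z i = s (pre z i) := by
      intro i
      induction i using Nat.strong_induction_on with
      | _ i ih =>
        intro hij
        rcases Nat.lt_or_ge i (max m N) with h | h
        · have e1 := (pre_eq_iff _ _ _).1 e i h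
          have e2 : pre z i = pre x i := by
            rw [pre_eq_iff] at e ⊢
            exact fun k hk => e k (by omega)
          rw [e1, e2]
          exact hx.2 i hij
        · obtain ⟨y, hy, hyc, -⟩ := cont hKs hs (anyc K) (fun σ hσ _ => anyc_mem hKs hσ)
            (pre z i) (hz i) z (fun k hk hkj => ih k (by rwa [length_pre] at hk) hkj)
            (mem_cyl_pre z i)
          have e3 := pre_of_cyl hyc
          have e4 : pre y N = pre x N := by
            rw [pre_eq_iff] at e e3 ⊢
            intro k hk
            have hk' : k < max m N := lt_of_lt_of_le hk (le_max_right _ _)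
            rw [e3 k (lt_of_lt_of_le hk' h), e k hk']
          have h5 := hcon y hy e4 i (le_trans (le_max_left _ _) h) hij
          rw [e3] at h5
          refine eq_of_not_branch' h5 ?_ (hs _ (hz i) (by rw [length_pre]; exact hij))
          rw [← pre_succ]; exact hz _
    exact fun m => ⟨m, le_rfl, fun i _ _ hij => key i hij⟩
  have h1 := hbig.trans_le ((dimH_mono hsub).trans (hhalf j s hj))
  exact absurd h1 (lt_irrefl _)

end R624BT
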