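import Pool.Agent.R624.BT.Stm

/-!
# Binary subtrees (MP_decccb_lc): the kernel
-/

set_option autoImplicit false

namespace R624BT

open Set Cardinal
open scoped ENNReal NNReal

theorem s_ker : S_ker := by
  classical
  intro T hT hdim
  let K : Set (List Bool) := {σ | σ ∈ T ∧ 1 / 2 < dimH (canopy T ∩ cyl σ)}
  have hKT : K ⊆ T := fun σ hσ => hσ.1
  have hdiff : dimH (canopy T \ canopy K) ≤ 1 / 2 := by
    have h1 : canopy T \ canopy K ⊆ ⋃ σ : {σ : List Bool // σ ∈ T ∧ σ ∉ K}, canopy T ∩ cyl σ.1 := by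
      rintro x ⟨hx, hxK⟩
      have h2 : ¬ ∀ n, pre x n ∈ K := hxK
      push Not at h2
      obtain ⟨n, hn⟩ := h2
      exact mem_iUnion.2 ⟨⟨pre x n, hx n, hn⟩, hx, mem_cyl_pre x n⟩
    refine (dimH_mono h1).trans ?_
    rw [dimH_iUnion]
    refine iSup_le ?_
    rintro ⟨σ, hσT, hσK⟩
    by_contra hcon
    exact hσK ⟨hσT, not_le.1 hcon⟩
  have hpos : ∀ A : Set Seq, 1 / 2 < dimH A → A.Nonempty := by
    intro A hA
    by_contra hcon
    rw [not_nonempty_iff_eq_empty] at hcon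
    rw [hcon, dimH_empty] at hA
    exact absurd hA (not_lt.2 zero_le)
  refine ⟨K, hKT, ⟨⟨?_, ?_⟩, ?_, ?_⟩, hdiff⟩
  · rintro σ τ h ⟨h1, h2⟩
    refine ⟨hT.prefix_mem σ τ h h1, h2.trans_le (dimH_mono ?_)⟩
    exact inter_subset_inter_right _ (cyl_anti h)
  · rintro σ ⟨h1, h2⟩
    rw [cyl_split, inter_union_distrib_left, dimH_union, lt_max_iff] at h2
    rcases h2 with h2 | h2
    · obtain ⟨x, hx1, hx2⟩ := hpos _ h2
      refine ⟨σ ++ [false], ⟨?_, h2⟩, List.prefix_append _ _, by simp⟩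
      rw [← mem_cyl.1 hx2]; exact hx1 _
    · obtain ⟨x, hx1, hx2⟩ := hpos _ h2
      refine ⟨σ ++ [true], ⟨?_, h2⟩, List.prefix_append _ _, by simp⟩
      rw [← mem_cyl.1 hx2]; exact hx1 _
  · refine ⟨?_, ?_⟩
    · obtain ⟨x, hx⟩ := hpos _ hdim
      have := hx 0
      rwa [pre_zero] at this
    · rw [cyl_nil, inter_univ]; exact hdim
  · rintro σ ⟨h1, h2⟩
    have h3 : canopy T ∩ cyl σ ⊆ (canopy K ∩ cyl σ) ∪ (canopy T \ canopy K) := by
      rintro x ⟨hx1, hx2⟩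
      by_cases h : x ∈ canopy K
      · exact Or.inl ⟨h, hx2⟩
      · exact Or.inr ⟨hx1, h⟩
    have h4 := h2.trans_le (dimH_mono h3)
    rw [dimH_union, lt_max_iff] at h4
    rcases h4 with h4 | h4
    · exact h4
    · exact absurd (h4.trans_le hdiff) (lt_irrefl _)

end R624BT
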