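import Pool.Agent.R624.BT.Stm

/-!
# Binary subtrees (MP_decccb_lc): piece (low)
-/

set_option autoImplicit false

namespace R624BT

open Set MeasureTheory
open scoped ENNReal NNReal

/-- there are nodes on `x` of arbitrarily small cost -/
lemma exists_small (t : ℝ≥0) (ht : 0 < t) (ε : ℝ) (hε : 0 < ε) :
    ∃ m : ℕ, (1 / 2 : ℝ) ^ ((t : ℝ) * (m : ℝ)) ≤ ε := by
  have h1 : (1 / 2 : ℝ) ^ (t : ℝ) < 1 :=
    Real.rpow_lt_one (by norm_num) (by norm_num) (by exact_mod_cast ht)
  obtain ⟨m, hm⟩ := exists_pow_lt_of_lt_one hε h1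
  refine ⟨m, ?_⟩
  rw [Real.rpow_mul (by norm_num), Real.rpow_natCast]
  exact hm.le

/-- a node for each member of a cover -/
lemma exists_node (t : ℝ≥0) (ht : 0 < t) (ε : ℝ) (hε : 0 < ε) (A : Set Seq) :
    ∃ τ : List Bool, A ⊆ cyl τ ∧
      ENNReal.ofReal ((1 / 2 : ℝ) ^ ((t : ℝ) * (τ.length : ℝ))) ≤
        (⨆ _ : A.Nonempty, Metric.ediam A ^ (t : ℝ)) + ENNReal.ofReal ε := by
  obtain ⟨m0, hm0⟩ := exists_small t ht ε hε
  rcases A.eq_empty_or_nonempty with hA | hA
  · refine ⟨pre (fun _ => false) m0, by simp [hA], ?_⟩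
    rw [length_pre]
    exact (ENNReal.ofReal_le_ofReal hm0).trans le_add_self
  obtain ⟨x, hx⟩ := hA
  by_cases hsing : ∀ y ∈ A, y = x
  · refine ⟨pre x m0, ?_, ?_⟩
    · intro y hy
      rw [hsing y hy]
      exact mem_cyl_pre x m0
    · rw [length_pre]
      exact (ENNReal.ofReal_le_ofReal hm0).trans le_add_self
  · push Not at hsing
    obtain ⟨y0, hy0, hne⟩ := hsing
    have hex : ∃ k, ∃ y ∈ A, pre y k ≠ pre x k := by
      by_contra hcon
      push Not at hcon
      apply hne
      funext i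
      have h1 := hcon (i + 1) y0 hy0
      exact (pre_eq_iff y0 x (i + 1)).1 h1 i (Nat.lt_succ_self i)
    classical
    obtain ⟨y, hy, hyk⟩ := Nat.find_spec hex
    have hk0 : Nat.find hex ≠ 0 := by
      intro h0
      rw [h0] at hyk
      simp at hyk
    obtain ⟨m, hm⟩ := Nat.exists_eq_succ_of_ne_zero hk0
    have hmin : ∀ z ∈ A, pre z m = pre x m := by
      intro z hz
      by_contra hcon
      exact Nat.find_min hex (m := m) (by omega) ⟨z, hz, hcon⟩
    refine ⟨pre x m, ?_, ?_⟩
    · intro z hz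
      rw [mem_cyl, length_pre]
      exact hmin z hz
    · rw [length_pre]
      have hd : (1 / 2 : ℝ) ^ m ≤ dist x y := by
        have hxy : x ≠ y := by
          rintro rfl
          exact hyk rfl
        rw [PiNat.dist_eq_of_ne hxy]
        have h2 : PiNat.firstDiff x y ≤ m := by
          by_contra hcon
          push Not at hcon
          apply hyk
          rw [hm]
          have h3 : dist y x ≤ (1 / 2) ^ (m + 1) := by
            rw [dist_comm, PiNat.dist_eq_of_ne hxy]
            exact pow_le_pow_of_le_one (by norm_num) (by norm_num) hcon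
          exact (dist_le_iff y x (m + 1)).1 h3
        exact pow_le_pow_of_le_one (by norm_num) (by norm_num) h2
      have h4 : ENNReal.ofReal ((1 / 2 : ℝ) ^ m) ≤ Metric.ediam A := by
        refine le_trans ?_ (Metric.edist_le_ediam_of_mem hx hy)
        rw [edist_dist]
        exact ENNReal.ofReal_le_ofReal hd
      have h5 : ENNReal.ofReal ((1 / 2 : ℝ) ^ ((t : ℝ) * (m : ℝ))) ≤ Metric.ediam A ^ (t : ℝ) := by
        refine le_trans (le_of_eq ?_) (ENNReal.rpow_le_rpow h4 t.2)
        rw [ENNReal.ofReal_rpow_of_pos (by positivity)]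
        congr 1
        rw [mul_comm, Real.rpow_mul (by norm_num), Real.rpow_natCast]
      refine h5.trans (le_trans ?_ le_self_add)
      exact le_iSup_of_le ⟨x, hx⟩ le_rfl

theorem s_low : S_low := by
  intro t D c ht hD hc hLB
  borelize Seq
  apply le_dimH_of_hausdorffMeasure_ne_zero
  have hkey : ENNReal.ofReal (c / 2) ≤ μH[(t : ℝ)] D := by
    rw [Measure.hausdorffMeasure_apply]
    refine le_iSup_of_le 1 (le_iSup_of_le one_pos ?_)
    refine le_iInf fun A => le_iInf fun hA => le_iInf fun _ => ?_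
    set a : ℕ → ℝ≥0∞ := fun n => ⨆ _ : (A n).Nonempty, Metric.ediam (A n) ^ (t : ℝ) with ha
    have hε : ∀ n : ℕ, 0 < c / 2 / 2 / 2 ^ n := fun n => by positivity
    choose τ hτ1 hτ2 using fun n => exists_node t ht _ (hε n) (A n)
    have hDc : IsCompact D := hD.isCompact
    obtain ⟨s, hs⟩ := hDc.elim_finite_subcover (fun n => cyl (τ n)) (fun n => isOpen_cyl _)
      (hA.trans (iUnion_mono hτ1))
    classical
    have h1 : c ≤ cost t (s.image τ) := by
      apply hLB
      intro x hx
      obtain ⟨i, hi, hxi⟩ := mem_iUnion₂.1 (hs hx)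
      exact ⟨τ i, Finset.mem_image_of_mem τ hi, hxi⟩
    have h2 : cost t (s.image τ) ≤ ∑ n ∈ s, (1 / 2 : ℝ) ^ ((t : ℝ) * ((τ n).length : ℝ)) := by
      unfold cost
      apply Finset.sum_image_le_of_nonneg
      intro i _
      positivity
    have h3 : ENNReal.ofReal c ≤ ∑' n, a n + ENNReal.ofReal (c / 2) := by
      calc ENNReal.ofReal c
          ≤ ENNReal.ofReal (∑ n ∈ s, (1 / 2 : ℝ) ^ ((t : ℝ) * ((τ n).length : ℝ))) :=
            ENNReal.ofReal_le_ofReal (h1.trans h2)
        _ = ∑ n ∈ s, ENNReal.ofReal ((1 / 2 : ℝ) ^ ((t : ℝ) * ((τ n).length : ℝ))) := by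
            rw [ENNReal.ofReal_sum_of_nonneg]
            intro i _
            positivity
        _ ≤ ∑ n ∈ s, (a n + ENNReal.ofReal (c / 2 / 2 / 2 ^ n)) :=
            Finset.sum_le_sum fun n _ => hτ2 n
        _ ≤ ∑' n, (a n + ENNReal.ofReal (c / 2 / 2 / 2 ^ n)) := ENNReal.sum_le_tsum s
        _ = ∑' n, a n + ∑' n, ENNReal.ofReal (c / 2 / 2 / 2 ^ n) := ENNReal.tsum_add
        _ = ∑' n, a n + ENNReal.ofReal (c / 2) := by
            congr 1
            rw [← ENNReal.ofReal_tsum_of_nonneg (fun n => (hε n).le) (summable_geometric_two' _),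
              tsum_geometric_two']
    have h4 : ENNReal.ofReal c = ENNReal.ofReal (c / 2) + ENNReal.ofReal (c / 2) := by
      rw [← ENNReal.ofReal_add (by positivity) (by positivity)]
      congr 1
      ring
    rw [h4] at h3
    exact (ENNReal.add_le_add_iff_right ENNReal.ofReal_ne_top).1 h3
  intro h0
  rw [h0] at hkey
  have : 0 < ENNReal.ofReal (c / 2) := ENNReal.ofReal_pos.2 (by positivity)
  exact absurd (this.trans_le hkey) (lt_irrefl _)

end R624BT
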