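import Pool.Agent.R624.BT.Stm

/-!
# Binary subtrees (MP_decccb_lc): assembly
-/

set_option autoImplicit false

namespace R624BT

open Set Cardinal
open scoped ENNReal NNReal

open Classical in
/-- the least child of a node in the tree `K` -/
noncomputable def lc (K : Set (List Bool)) (σ : List Bool) : Bool :=
  if σ ++ [false] ∈ K then false else true

lemma lc_mem {K : Set (List Bool)} (hK : IsSubtree K) {σ : List Bool} (hσ : σ ∈ K) :
    σ ++ [lc K σ] ∈ K := by
  obtain ⟨τ, hτ, ⟨ρ, rfl⟩, hne⟩ := hK.proper_ext σ hσ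
  cases ρ with
  | nil => simp at hne
  | cons b ρ =>
    have h1 : σ ++ [b] ∈ K := hK.prefix_mem _ _ ⟨ρ, by simp⟩ hτ
    unfold lc
    split_ifs with h
    · exact h
    · cases b
      · exact absurd h1 h
      · exact h1

lemma lc_strategy {K : Set (List Bool)} (hK : IsSubtree K) (j : ℕ) : IsStrategy K j (lc K) :=
  fun _ hσ _ => lc_mem hK hσ

lemma eq_of_not_branch {K : Set (List Bool)} {σ : List Bool} {a b : Bool}
    (h : ¬ Branch K σ) (ha : σ ++ [a] ∈ K) (hb : σ ++ [b] ∈ K) : a = b := by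
  unfold Branch at h
  cases a <;> cases b <;> simp_all

lemma Pset_subset {K : Set (List Bool)} (hK : IsSubtree K) (j : ℕ) :
    Pset K j ⊆ Gset j (lc K) := by
  rintro x ⟨hx, n, hn⟩ m
  refine ⟨max m n, le_max_left _ _, fun i hi _ hij => ?_⟩
  have h1 := hn i (le_trans (le_max_right _ _) hi) hij
  refine eq_of_not_branch h1 ?_ (lc_mem hK (hx i))
  rw [← pre_succ]; exact hx (i + 1)

lemma Pset_disj {K : Set (List Bool)} (hK : Good K) {x : Seq} (h0 : x ∈ Pset K 0)
    (h1 : x ∈ Pset K 1) : False := by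
  obtain ⟨hx, n, hn⟩ := h0
  obtain ⟨-, m, hm⟩ := h1
  have hbig := hK.big (pre x (max n m)) (hx _)
  have hsub : canopy K ∩ cyl (pre x (max n m)) ⊆ {x} := by
    rintro z ⟨hz, hzc⟩
    have hz0 : pre z (max n m) = pre x (max n m) := by
      have := mem_cyl.1 hzc
      rwa [length_pre] at this
    have key : ∀ k, pre z (max n m + k) = pre x (max n m + k) := by
      intro k
      induction k with
      | zero => exact hz0
      | succ k ih =>
        rw [← Nat.add_assoc, pre_succ, pre_succ, ih]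
        have hb : ¬ Branch K (pre x (max n m + k)) := by
          rcases Nat.mod_two_eq_zero_or_one (max n m + k) with h | h
          · exact hn _ (by omega) h
          · exact hm _ (by omega) h
        have e : z (max n m + k) = x (max n m + k) := by
          refine eq_of_not_branch hb ?_ ?_
          · rw [← ih, ← pre_succ]; exact hz _
          · rw [← pre_succ]; exact hx _
        rw [e]
    rw [mem_singleton_iff]
    funext i
    have h3 := key (i + 1)
    rw [pre_eq_iff] at h3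
    exact h3 i (by omega)
  have := dimH_mono hsub
  rw [dimH_singleton] at this
  have h4 := hbig.trans_le this
  exact absurd h4 (not_lt.2 zero_le)

lemma plays_subset (j : ℕ) (s : List Bool → Bool) {x : Seq}
    (hx : Consistent j s x) : x ∈ Gset j s :=
  fun m => ⟨m, le_rfl, fun i _ _ hij => hx i hij⟩

/-- play on in `T`, following the strategy `s` -/
lemma play_on {T : Set (List Bool)} (hT : IsSubtree T) {j : ℕ} {s : List Bool → Bool}
    (hs : IsStrategy T j s) (x : Seq) (n : ℕ) (hnj : n % 2 = j) (hx : pre x n ∈ T)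
    (hc : ∀ m, m < n → m % 2 = j → x m = s (pre x m)) :
    ∃ y ∈ canopy T, Consistent j s y ∧ pre y n = pre x n ∧ pre y (n + 1) = pre x n ++ [s (pre x n)] := by
  classical
  let r : List Bool → Bool := fun σ => if σ.length % 2 = j then s σ else lc T σ
  have hr : ∀ σ ∈ T, σ ++ [r σ] ∈ T := by
    intro σ hσ
    simp only [r]
    split_ifs with h
    · exact hs σ hσ h
    · exact lc_mem hT hσ
  obtain ⟨y, hy1, hy2, hy3⟩ := exists_play r hr hT.prefix_mem (pre x n) hx
  have e1 : pre y n = pre x n := by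
    have := mem_cyl.1 hy2
    rwa [length_pre] at this
  rw [length_pre] at hy3
  refine ⟨y, hy1, ?_, e1, ?_⟩
  · intro m hm
    rcases Nat.lt_or_ge m n with h | h
    · have e2 : pre y m = pre x m := by
        rw [pre_eq_iff] at e1 ⊢
        exact fun i hi => e1 i (by omega)
      rw [e2, (pre_eq_iff y x n).1 e1 m h]
      exact hc m h hm
    · rw [hy3 m h]
      simp [r, hm]
  · rw [pre_succ, hy3 n le_rfl, e1]
    simp [r, hnj]

/-- a strategy of `T` that never leaves `K` before the opponent does restricts to `K` -/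
lemma restrict {K : Set (List Bool)} (hK : IsSubtree K) {j : ℕ} {s : List Bool → Bool}
    (hB : ∀ (x : Seq) (n : ℕ), n % 2 = j → pre x n ∈ K →
      (∀ m, m < n → m % 2 = j → x m = s (pre x m)) → pre x n ++ [s (pre x n)] ∈ K) :
    ∃ s', IsStrategy K j s' ∧ ∀ x ∈ plays K j s', Consistent j s x := by
  classical
  refine ⟨fun σ => if σ ++ [s σ] ∈ K then s σ else lc K σ, ?_, ?_⟩
  · intro σ hσ _
    change σ ++ [if σ ++ [s σ] ∈ K then s σ else lc K σ] ∈ K
    split_ifs with h
    · exact h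
    · exact lc_mem hK hσ
  · rintro x ⟨hx1, hx2⟩ n
    induction n using Nat.strong_induction_on with
    | _ n ih =>
      intro hn
      have h1 := hB x n hn (hx1 n) (fun m hm hmj => ih m hm hmj)
      have h2 := hx2 n hn
      simp only [h1, if_true] at h2
      exact h2

lemma card_strat (P : (List Bool → Bool) → Prop) : #{s // P s} ≤ 𝔠 := by
  refine (Cardinal.mk_subtype_le P).trans ?_
  have h : #(List Bool → Bool) = 𝔠 := by
    rw [← Cardinal.power_def]
    simp
  exact h.le

theorem nondet (hker : S_ker) (hD : S_D) (hhalf : S_half) (hmany : S_many) (hinj : S_inj)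
    (T : Set (List Bool)) (hT : IsSubtree T) (hdim : 1 / 2 < dimH (canopy T)) (δ : ℝ≥0∞)
    (hδ : 1 / 2 ≤ δ) (hδd : δ ≤ dimH (canopy T)) :
    ∃ W ⊆ canopy T, dimH W = δ ∧ ¬ WinsI T W ∧ ¬ WinsII T W := by
  classical
  obtain ⟨K, hKT, hK, hdiff⟩ := hker T hT hdim
  have hKs := hK.sub
  have hcan : canopy K ⊆ canopy T := fun x hx n => hKT (hx n)
  have hdimK : dimH (canopy T) ≤ dimH (canopy K) := by
    have h1 : canopy T ⊆ canopy K ∪ (canopy T \ canopy K) := by
      intro x hx
      by_cases h : x ∈ canopy K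
      · exact Or.inl h
      · exact Or.inr ⟨hx, h⟩
    have h2 := dimH_mono h1
    rw [dimH_union] at h2
    rcases le_max_iff.1 h2 with h3 | h3
    · exact h3
    · exact absurd (hdim.trans_le (h3.trans hdiff)) (lt_irrefl _)
  obtain ⟨D, hDK, hDG, hDd⟩ := hD (canopy K) 1 (lc K) δ (by norm_num) (isClosed_canopy K)
    (hdim.trans_le hdimK) hδ (hδd.trans hdimK)
  let I : Type := {s : List Bool → Bool // IsStrategy K 0 s ∧ ¬ ∃ p ∈ plays K 0 s, p ∈ Pset K 1} ⊕
    {s : List Bool → Bool // IsStrategy K 1 s ∧ ¬ ∃ p ∈ plays K 1 s, p ∈ Pset K 0}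
  let G : I → Set Seq := fun i => match i with
    | .inl s => (plays K 0 s.1 ∩ Gset 1 (lc K)) \ Pset K 0
    | .inr s => (plays K 1 s.1 ∩ Gset 0 (lc K)) \ Pset K 1
  have hI : #I ≤ 𝔠 := by
    have e : #I = #{s : List Bool → Bool // IsStrategy K 0 s ∧ ¬ ∃ p ∈ plays K 0 s, p ∈ Pset K 1} +
      #{s : List Bool → Bool // IsStrategy K 1 s ∧ ¬ ∃ p ∈ plays K 1 s, p ∈ Pset K 0} := by
      simp only [I, Cardinal.mk_sum, Cardinal.lift_id]
    rw [e]
    calc _ ≤ 𝔠 + 𝔠 := add_le_add (card_strat _) (card_strat _)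
      _ = 𝔠 := Cardinal.continuum_add_self
  have hG : ∀ i, 𝔠 ≤ #(G i) := by
    rintro (⟨s, hs1, hs2⟩ | ⟨s, hs1, hs2⟩)
    · rcases hmany K 0 s (lc K) hK (by norm_num) hs1 (lc_strategy hKs _) with h | h
      · exact absurd h hs2
      · exact h
    · rcases hmany K 1 s (lc K) hK (by norm_num) hs1 (lc_strategy hKs _) with h | h
      · exact absurd h hs2
      · exact h
  obtain ⟨f, hfi, hfG⟩ := hinj hI G hG
  let Y : Set Seq := {x | ∃ s, x = f (Sum.inr s)}
  let Ex : Set Seq := {x | x ∈ canopy T ∧ ∃ n, n % 2 = 1 ∧ pre x n ∈ K ∧ pre x (n + 1) ∉ K}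
  have hYK : ∀ x ∈ Y, x ∈ canopy K ∧ x ∈ Gset 0 (lc K) ∧ x ∉ Pset K 1 := by
    rintro x ⟨s, rfl⟩
    have h := hfG (Sum.inr s)
    exact ⟨h.1.1.1, h.1.2, h.2⟩
  have hExK : ∀ x ∈ Ex, x ∉ canopy K := by
    rintro x ⟨-, n, -, -, h⟩ hx
    exact h (hx _)
  refine ⟨D ∪ Y ∪ Pset K 0 ∪ Ex, ?_, ?_, ?_, ?_⟩
  · rintro x (((h | h) | h) | h)
    · exact hcan (hDK h)
    · exact hcan (hYK x h).1
    · exact hcan h.1
    · exact h.1
  · apply le_antisymm
    · rw [dimH_union, dimH_union, dimH_union]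
      refine max_le (max_le (max_le hDd.le ?_) ?_) ?_
      · exact (dimH_mono (fun x hx => (hYK x hx).2.1)).trans ((hhalf 0 (lc K) (by norm_num)).trans hδ)
      · exact (dimH_mono (Pset_subset hKs 0)).trans ((hhalf 0 (lc K) (by norm_num)).trans hδ)
      · refine (dimH_mono ?_).trans (hdiff.trans hδ)
        exact fun x hx => ⟨hx.1, hExK x hx⟩
    · rw [← hDd]
      apply dimH_mono
      intro x hx
      exact Or.inl (Or.inl (Or.inl hx))
  · rintro ⟨s, hs, hwin⟩
    by_cases hB : ∀ (x : Seq) (n : ℕ), n % 2 = 0 → pre x n ∈ K →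
      (∀ m, m < n → m % 2 = 0 → x m = s (pre x m)) → pre x n ++ [s (pre x n)] ∈ K
    · obtain ⟨s', hs', hcons⟩ := restrict hKs hB
      by_cases hp : ∃ p ∈ plays K 0 s', p ∈ Pset K 1
      · obtain ⟨p, hp1, hp2⟩ := hp
        have hpK : p ∈ canopy K := hp1.1
        have hw := hwin p (hcan hpK) (hcons p hp1)
        rcases hw with ((h | h) | h) | h
        · exact Set.disjoint_left.1 hDG h (Pset_subset hKs 1 hp2)
        · exact (hYK p h).2.2 hp2
        · exact Pset_disj hK h hp2
        · exact hExK p h hpK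
      · let i : I := Sum.inl ⟨s', hs', hp⟩
        have h := hfG i
        have hK0 : f i ∈ canopy K := h.1.1.1
        have hw := hwin (f i) (hcan hK0) (hcons _ h.1.1)
        rcases hw with ((h1 | h1) | h1) | h1
        · exact Set.disjoint_left.1 hDG h1 h.1.2
        · obtain ⟨s2, hs2⟩ := h1
          have := hfi hs2
          exact Sum.inl_ne_inr this
        · exact h.2 h1
        · exact hExK _ h1 hK0
    · push Not at hB
      obtain ⟨x, n, hn, hxn, hc, hnot⟩ := hB
      obtain ⟨y, hy1, hy2, hy3, hy4⟩ := play_on hT hs x n hn (hKT hxn) hc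
      have hyK : y ∉ canopy K := by
        intro h
        apply hnot
        rw [← hy4]; exact h _
      rcases hwin y hy1 hy2 with ((h | h) | h) | h
      · exact hyK (hDK h)
      · exact hyK (hYK y h).1
      · exact hyK h.1
      · obtain ⟨-, k, hk, hk1, hk2⟩ := h
        rcases Nat.lt_trichotomy k n with h3 | h3 | h3
        · apply hk2
          refine hKs.prefix_mem _ _ (pre_prefix y (show k + 1 ≤ n by omega)) ?_
          rw [hy3]; exact hxn
        · omega
        · apply hnot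
          rw [← hy4]
          exact hKs.prefix_mem _ _ (pre_prefix y (show n + 1 ≤ k by omega)) hk1
  · rintro ⟨s, hs, hwin⟩
    by_cases hB : ∀ (x : Seq) (n : ℕ), n % 2 = 1 → pre x n ∈ K →
      (∀ m, m < n → m % 2 = 1 → x m = s (pre x m)) → pre x n ++ [s (pre x n)] ∈ K
    · obtain ⟨s', hs', hcons⟩ := restrict hKs hB
      by_cases hp : ∃ p ∈ plays K 1 s', p ∈ Pset K 0
      · obtain ⟨p, hp1, hp2⟩ := hp
        exact hwin p (hcan hp1.1) (hcons p hp1) (Or.inl (Or.inr hp2))
      · let i : I := Sum.inr ⟨s', hs', hp⟩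
        have h := hfG i
        exact hwin (f i) (hcan h.1.1.1) (hcons _ h.1.1) (Or.inl (Or.inl (Or.inr ⟨_, rfl⟩)))
    · push Not at hB
      obtain ⟨x, n, hn, hxn, hc, hnot⟩ := hB
      obtain ⟨y, hy1, hy2, hy3, hy4⟩ := play_on hT hs x n hn (hKT hxn) hc
      apply hwin y hy1 hy2
      right
      refine ⟨hy1, n, hn, ?_, ?_⟩
      · rw [hy3]; exact hxn
      · rw [hy4]; exact hnot

theorem full (hker : S_ker) (hD : S_D) (hhalf : S_half) (hmany : S_many) (hinj : S_inj)
    (T : Set (List Bool)) (hT : IsSubtree T) (hdim : 1 / 2 < dimH (canopy T)) (δ : ℝ≥0∞)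
    (hδ : 1 / 2 ≤ δ) (hδd : δ ≤ dimH (canopy T)) :
    ∃ W WI WII : Set Seq, W ⊆ canopy T ∧ WI ⊆ canopy T ∧ WII ⊆ canopy T ∧
      dimH W = δ ∧ dimH WI = δ ∧ dimH WII = δ ∧
      ¬ (WinsI T W ∨ WinsII T W) ∧ WinsI T WI ∧ WinsII T WII := by
  obtain ⟨W, hW, hWd, hW1, hW2⟩ := nondet hker hD hhalf hmany hinj T hT hdim δ hδ hδd
  obtain ⟨D, hDT, hDG, hDd⟩ := hD (canopy T) 1 (lc T) δ (by norm_num) (isClosed_canopy T)
    hdim hδ hδd
  refine ⟨W, D ∪ plays T 0 (lc T), D, hW, ?_, hDT, hWd, ?_, hDd, ?_, ?_, ?_⟩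
  · rintro x (h | h)
    · exact hDT h
    · exact h.1
  · rw [dimH_union, hDd]
    apply max_eq_left
    refine (dimH_mono ?_).trans ((hhalf 0 (lc T) (by norm_num)).trans hδ)
    intro x hx
    exact plays_subset 0 (lc T) hx.2
  · rintro (h | h)
    · exact hW1 h
    · exact hW2 h
  · exact ⟨lc T, lc_strategy hT 0, fun x hx hc => Or.inr ⟨hx, hc⟩⟩
  · refine ⟨lc T, lc_strategy hT 1, fun x hx hc hxD => ?_⟩
    exact Set.disjoint_left.1 hDG hxD (plays_subset 1 (lc T) hc)

end R624BT
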