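import Pool.Agent.R624.BT.Stm

/-!
# Binary subtrees (MP_decccb_lc): injective choice and the many plays
-/

set_option autoImplicit false

namespace R624BT

open Set Cardinal
open scoped ENNReal NNReal

/-- injective choice from at most continuum many sets of size continuum
(the same proof as `Pool.Agent.R598.TF.inj_choice`) -/
theorem s_inj : S_inj := by
  classical
  intro I R hI G hG
  obtain ⟨r, wo, hr⟩ := Cardinal.exists_ord_eq I
  have hcard : ∀ i, #{j // r j i} < 𝔠 := by
    intro i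
    have h1 := Cardinal.card_typein_lt (r := r) i hr
    exact lt_of_lt_of_le h1 hI
  have hex : ∀ (i : I) (f : (j : I) → r j i → R), ∃ y ∈ G i, ∀ j (h : r j i), f j h ≠ y := by
    intro i f
    by_contra hcon
    push Not at hcon
    have hsub : G i ⊆ Set.range (fun j : {j // r j i} => f j.1 j.2) := by
      intro y hy
      obtain ⟨j, h, hj⟩ := hcon y hy
      exact ⟨⟨j, h⟩, hj⟩
    have h1 : #(G i) ≤ #{j // r j i} := (Cardinal.mk_le_mk_of_subset hsub).trans mk_range_le
    exact absurd (hG i) (not_le.2 (h1.trans_lt (hcard i)))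
  choose y hy1 hy2 using hex
  let f : I → R := wo.wf.fix (C := fun _ => R) (fun i f => y i f)
  have hf : ∀ i, f i = y i (fun j _ => f j) := fun i => wo.wf.fix_eq (C := fun _ => R) _ i
  refine ⟨f, ?_, fun i => ?_⟩
  · intro i j hij
    by_contra hne
    rcases trichotomous_of r i j with h | h | h
    · have := hy2 j (fun k _ => f k) i h
      rw [← hf j] at this
      exact this hij
    · exact hne h
    · have := hy2 i (fun k _ => f k) j h
      rw [← hf i] at this
      exact this hij.symm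
  · rw [hf i]; exact hy1 i _

lemma continuous_pre_eq (P : Seq → Prop) (N : ℕ) (h : ∀ x y : Seq, pre x N = pre y N → P x → P y) :
    IsOpen {x | P x} := by
  rw [isOpen_iff_forall_mem_open]
  intro x hx
  refine ⟨cyl (pre x N), ?_, isOpen_cyl _, mem_cyl_pre x N⟩
  intro y hy
  have h1 : pre y N = pre x N := by
    have := mem_cyl.1 hy
    rwa [length_pre] at this
  exact h x y h1.symm hx

lemma pre_eq_of_le {x y : Seq} {m n : ℕ} (h : m ≤ n) (hxy : pre x n = pre y n) :
    pre x m = pre y m := by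
  rw [pre_eq_iff] at hxy ⊢
  exact fun i hi => hxy i (by omega)

theorem s_many (hperf : S_perf) (hiso : S_iso) (hdG : S_dG) (hdP : S_dP) : S_many := by
  intro K j s ℓ hK hj hs hℓ
  by_cases hp : ∃ p ∈ plays K j s, p ∈ Pset K (1 - j)
  · exact Or.inl hp
  right
  push Not at hp
  obtain ⟨hne, hcl, hni⟩ := hiso K j s hK hj hs hp
  let GU : ℕ → Set Seq := fun m =>
    {y | ∃ n, m ≤ n ∧ ∀ i, n ≤ i → i < n ^ 2 → i % 2 = 1 - j → y i = ℓ (pre y i)}
  let PU : ℕ → Set Seq := fun m => {y | ∃ i, m ≤ i ∧ i % 2 = j ∧ Branch K (pre y i)}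
  let U : ℕ → Set Seq := fun m => if m % 2 = 0 then GU (m / 2) else PU (m / 2)
  have hGU : ∀ m, IsOpen (GU m) := by
    intro m
    have : GU m = ⋃ n, {y | m ≤ n ∧ ∀ i, n ≤ i → i < n ^ 2 → i % 2 = 1 - j → y i = ℓ (pre y i)} := by
      ext y; simp [GU]
    rw [this]
    refine isOpen_iUnion fun n => ?_
    refine continuous_pre_eq _ (n ^ 2) ?_
    rintro x y hxy ⟨h1, h2⟩
    refine ⟨h1, fun i hi1 hi2 hi3 => ?_⟩
    have h3 := h2 i hi1 hi2 hi3
    rw [← (pre_eq_iff x y _).1 hxy i hi2, ← pre_eq_of_le hi2.le hxy]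
    exact h3
  have hPU : ∀ m, IsOpen (PU m) := by
    intro m
    have : PU m = ⋃ i, {y | m ≤ i ∧ i % 2 = j ∧ Branch K (pre y i)} := by
      ext y; simp [PU]
    rw [this]
    refine isOpen_iUnion fun i => ?_
    refine continuous_pre_eq _ i ?_
    rintro x y hxy ⟨h1, h2, h3⟩
    refine ⟨h1, h2, ?_⟩
    rw [← hxy]; exact h3
  have key := hperf (plays K j s) U hcl hne hni ?_ ?_
  · refine key.trans (Cardinal.mk_le_mk_of_subset ?_)
    rintro x ⟨hx1, hx2⟩
    rw [mem_iInter] at hx2
    refine ⟨⟨hx1, ?_⟩, ?_⟩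
    · intro m
      have h := hx2 (2 * m)
      have e1 : 2 * m % 2 = 0 := by omega
      have e2 : 2 * m / 2 = m := by omega
      simp only [U, e1, e2, if_true] at h
      exact h
    · rintro ⟨-, n, hn⟩
      have h := hx2 (2 * n + 1)
      have e1 : ¬ (2 * n + 1) % 2 = 0 := by omega
      have e2 : (2 * n + 1) / 2 = n := by omega
      simp only [U, e1, e2, if_false] at h
      obtain ⟨i, hi1, hi2, hi3⟩ := h
      exact hn i hi1 hi2 hi3
  · intro m
    simp only [U]
    split_ifs
    · exact hGU _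
    · exact hPU _
  · intro m x hx N
    simp only [U]
    split_ifs
    · obtain ⟨y, hy1, hy2, hy3⟩ := hdG K j s ℓ hK hj hs hℓ (m / 2) x hx N
      exact ⟨y, hy1, hy3, hy2⟩
    · obtain ⟨y, hy1, hy2, hy3⟩ := hdP K j s hK hj hs (m / 2) x hx N
      exact ⟨y, hy1, hy3, hy2⟩

end R624BT
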