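import Pool.Agent.R624.BT.Stm

/-!
# MP_decccb_lc: a minimal closed subset of given content (Zorn)
-/

set_option autoImplicit false

namespace R624BT

open Set Topology

theorem s_min : S_min := by
  intro t E c hE hLB
  obtain ⟨D, hDE, hD⟩ := zorn_superset_nonempty {D : Set Seq | IsClosed D ∧ LB t D c} (by
    intro 𝒞 h𝒞 hchain hne
    refine ⟨⋂₀ 𝒞, ⟨isClosed_sInter fun D hD => (h𝒞 hD).1, ?_⟩, fun s hs => sInter_subset_of_mem hs⟩
    intro F hF
    have : Nonempty 𝒞 := hne.to_subtype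
    have hU : IsOpen (⋃ τ ∈ F, cyl τ) := isOpen_biUnion fun τ _ => isOpen_cyl τ
    obtain ⟨⟨D, hD⟩, hDU⟩ := exists_subset_nhds_of_compactSpace (X := Seq)
      (V := fun D : 𝒞 => (D : Set Seq)) (by
        intro A B
        rcases hchain.total A.2 B.2 with h | h
        · exact ⟨A, subset_rfl, h⟩
        · exact ⟨B, h, subset_rfl⟩) (fun D => (h𝒞 D.2).1) (U := ⋃ τ ∈ F, cyl τ) (by
        intro x hx
        apply hU.mem_nhds
        obtain ⟨τ, hτ, hxτ⟩ := hF x (by
          intro D hD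
          exact mem_iInter.1 hx ⟨D, hD⟩)
        exact mem_biUnion hτ hxτ)
    refine (h𝒞 hD).2 F fun x hx => ?_
    have := hDU hx
    simpa using this) E ⟨hE, hLB⟩
  refine ⟨D, hDE, hD.prop.1, hD.prop.2, fun D' hD' hcl hlb => ?_⟩
  exact subset_antisymm hD' (hD.2 ⟨hcl, hlb⟩ hD')

end R624BT
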