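import Pool.Agent.R624.BT.Stm

/-!
# BT-net: net upper bound of the Hausdorff dimension
-/

set_option autoImplicit false
set_option maxHeartbeats 400000

namespace R624BT

open Set Filter Topology MeasureTheory MeasureTheory.Measure
open scoped ENNReal NNReal

theorem ediam_cyl_le (τ : List Bool) :
    Metric.ediam (cyl τ) ≤ ENNReal.ofReal ((1 / 2 : ℝ) ^ τ.length) := by
  apply Metric.ediam_le
  intro x hx y hy
  rw [edist_dist]
  apply ENNReal.ofReal_le_ofReal
  rw [dist_le_iff]
  rw [mem_cyl.1 hx, mem_cyl.1 hy]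

theorem s_net : S_net := by
  intro t A M hM h
  choose C hC1 hC2 hC3 using h
  have : BorelSpace Seq := inferInstance
  apply dimH_le_of_hausdorffMeasure_ne_top
  refine ne_top_of_le_ne_top hM ?_
  refine (hausdorffMeasure_le_liminf_tsum (ι := fun m => C m) (t : ℝ) A (l := atTop)
    (fun m => ENNReal.ofReal ((1 / 2 : ℝ) ^ m)) ?_ (fun m τ => cyl τ) ?_ ?_).trans ?_
  · have h1 : Tendsto (fun m : ℕ => (1 / 2 : ℝ) ^ m) atTop (𝓝 0) :=
      tendsto_pow_atTop_nhds_zero_of_lt_one (by norm_num) (by norm_num)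
    have h2 := ENNReal.tendsto_ofReal h1
    rwa [ENNReal.ofReal_zero] at h2
  · refine Eventually.of_forall fun m τ => ?_
    refine (ediam_cyl_le _).trans ?_
    apply ENNReal.ofReal_le_ofReal
    exact pow_le_pow_of_le_one (by norm_num) (by norm_num) (hC1 m τ τ.2)
  · refine Eventually.of_forall fun m x hx => ?_
    obtain ⟨τ, hτ, hxτ⟩ := hC2 m x hx
    exact mem_iUnion.2 ⟨⟨τ, hτ⟩, hxτ⟩
  · refine le_trans (liminf_le_liminf (Eventually.of_forall fun m => ?_)) (liminf_const M).le
    refine le_trans (ENNReal.tsum_le_tsum fun τ => ?_) (hC3 m)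
    refine (ENNReal.rpow_le_rpow (ediam_cyl_le _) t.2).trans ?_
    rw [ENNReal.ofReal_rpow_of_nonneg (by positivity) t.2, ← Real.rpow_natCast,
      ← Real.rpow_mul (by norm_num), mul_comm]
    exact le_rfl

end R624BT
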