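import Pool.Agent.R624.BT.Stm

/-!
# MP_decccb_lc: comeager subsets of perfect sets have cardinality continuum
-/

set_option autoImplicit false

namespace R624BT

open Set Topology Cardinal

lemma dense_of_prefix (C V : Set Seq) (h : ∀ x ∈ C, ∀ n, ∃ y ∈ C, y ∈ V ∧ pre y n = pre x n) :
    Dense ((fun x : C => (x : Seq)) ⁻¹' V) := by
  intro x
  rw [mem_closure_iff]
  rintro O hO hxO
  obtain ⟨O', hO', rfl⟩ := isOpen_induced_iff.1 hO
  obtain ⟨n, hn⟩ := exists_cyl_subset hO' hxO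
  obtain ⟨y, hyC, hyV, hy⟩ := h x x.2 n
  refine ⟨⟨y, hyC⟩, hn ?_, hyV⟩
  rw [mem_cyl, length_pre]
  exact hy

lemma not_countable (C : Set Seq) (U : ℕ → Set Seq) (hC : IsClosed C) (hne : C.Nonempty)
    (hp : ∀ x ∈ C, ∀ n, ∃ y ∈ C, y ≠ x ∧ pre y n = pre x n)
    (hU : ∀ m, IsOpen (U m)) (hd : ∀ m, ∀ x ∈ C, ∀ n, ∃ y ∈ C, y ∈ U m ∧ pre y n = pre x n) :
    ¬ (C ∩ ⋂ m, U m).Countable := by
  intro hcount
  have : CompactSpace C := isCompact_iff_compactSpace.1 hC.isCompact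
  have : Nonempty C := hne.to_subtype
  have h1 : Dense (⋂ m, (fun x : C => (x : Seq)) ⁻¹' (U m)) :=
    dense_iInter_of_isOpen (fun m => (hU m).preimage continuous_subtype_val)
      (fun m => dense_of_prefix C (U m) (hd m))
  have h2 : Dense (⋂ z ∈ (C ∩ ⋂ m, U m), (fun x : C => (x : Seq)) ⁻¹' {z}ᶜ) := by
    refine dense_biInter_of_isOpen (fun z _ => isOpen_compl_singleton.preimage
      continuous_subtype_val) hcount (fun z hz => dense_of_prefix C {z}ᶜ ?_)
    intro x hx n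
    by_cases hxz : x = z
    · obtain ⟨y, hyC, hyx, hy⟩ := hp x hx n
      exact ⟨y, hyC, by rw [← hxz]; exact hyx, hy⟩
    · exact ⟨x, hx, hxz, rfl⟩
  have h3 : Dense ((⋂ m, (fun x : C => (x : Seq)) ⁻¹' (U m)) ∩
      ⋂ z ∈ (C ∩ ⋂ m, U m), (fun x : C => (x : Seq)) ⁻¹' {z}ᶜ) := by
    refine Dense.inter_of_Gδ ?_ ?_ h1 h2
    · exact IsGδ.iInter_of_isOpen fun m => (hU m).preimage continuous_subtype_val
    · exact IsGδ.biInter_of_isOpen hcount fun z _ =>
        isOpen_compl_singleton.preimage continuous_subtype_val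
  obtain ⟨y, hy1, hy2⟩ := h3.nonempty
  have hyX : (y : Seq) ∈ C ∩ ⋂ m, U m := by
    refine ⟨y.2, ?_⟩
    rw [mem_iInter] at hy1 ⊢
    exact hy1
  have := mem_iInter₂.1 hy2 (y : Seq) hyX
  exact this rfl

theorem s_perf : S_perf := by
  intro C U hC hne hp hU hd
  have h1 := not_countable C U hC hne hp hU hd
  letI : MeasurableSpace Seq := borel Seq
  haveI : BorelSpace Seq := ⟨rfl⟩
  have hX : MeasurableSet (C ∩ ⋂ m, U m) :=
    hC.measurableSet.inter (MeasurableSet.iInter fun m => (hU m).measurableSet)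
  haveI : PolishSpace Seq := inferInstance
  haveI : StandardBorelSpace Seq := inferInstance
  haveI := hX.standardBorel
  have h2 : ¬ Countable (↥(C ∩ ⋂ m, U m)) := fun h => h1 (Set.countable_coe_iff.1 h)
  have h3 : ¬ Countable ℝ := not_countable_iff.2 inferInstance
  have e := PolishSpace.measurableEquivOfNotCountable h2 h3
  rw [Cardinal.mk_congr e.toEquiv, Cardinal.mk_real]

end R624BT
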