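import Pool.Agent.R624.BT.Defs

/-!
# Binary subtrees (MP_decccb_lc): the statements of the pieces
-/

set_option autoImplicit false

namespace R624BT

open Set Cardinal
open scoped ENNReal NNReal

/-- (net) net criterion for upper bounds of the dimension -/
def S_net : Prop := ∀ (t : ℝ≥0) (A : Set Seq) (M : ℝ≥0∞), M ≠ ∞ →
  (∀ m : ℕ, ∃ C : Set (List Bool), (∀ τ ∈ C, m ≤ τ.length) ∧ (∀ x ∈ A, ∃ τ ∈ C, x ∈ cyl τ) ∧
    ∑' τ : C, ENNReal.ofReal ((1 / 2 : ℝ) ^ ((t : ℝ) * ((τ : List Bool).length : ℝ))) ≤ M) →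
  dimH A ≤ t

/-- (low) lower bound of the dimension from a positive lower bound of the net content -/
def S_low : Prop := ∀ (t : ℝ≥0) (D : Set Seq) (c : ℝ), 0 < t → IsClosed D → 0 < c →
  LB (t : ℝ) D c → (t : ℝ≥0∞) ≤ dimH D

/-- (pos) a set of dimension more than `t` has positive content -/
def S_pos : Prop := ∀ (t : ℝ≥0) (E : Set Seq), 0 < t → (t : ℝ≥0∞) < dimH E →
  ∃ c : ℝ, 0 < c ∧ LB (t : ℝ) E c

/-- (min) Zorn: a minimal closed subset of given content -/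
def S_min : Prop := ∀ (t : ℝ) (E : Set Seq) (c : ℝ), IsClosed E → LB t E c →
  ∃ D ⊆ E, Minl t D c

/-- (fine) a minimal set has fine covers of cost at most `c + ε` -/
def S_fine : Prop := ∀ (t : ℝ) (D : Set Seq) (c : ℝ), 0 < t → 0 < c → Minl t D c →
  ∀ (n : ℕ) (ε : ℝ), 0 < ε →
    ∃ F : Finset (List Bool), Covers D F ∧ (∀ τ ∈ F, n ≤ τ.length) ∧ cost t F ≤ c + ε

/-- (sub) closed subsets of every smaller positive dimension -/
def S_sub : Prop := ∀ (t : ℝ≥0) (E : Set Seq), 0 < t → IsClosed E → (t : ℝ≥0∞) < dimH E →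
  ∃ D ⊆ E, IsClosed D ∧ dimH D = t

/-- (half) the sets `Gset j ℓ` have dimension at most 1/2 -/
def S_half : Prop := ∀ (j : ℕ) (ℓ : List Bool → Bool), j < 2 → dimH (Gset j ℓ) ≤ 1 / 2

/-- (D) a subset of prescribed dimension outside of `Gset j ℓ` -/
def S_D : Prop := ∀ (E : Set Seq) (j : ℕ) (ℓ : List Bool → Bool) (δ : ℝ≥0∞), j < 2 →
  IsClosed E → 1 / 2 < dimH E → 1 / 2 ≤ δ → δ ≤ dimH E →
  ∃ D ⊆ E, Disjoint D (Gset j ℓ) ∧ dimH D = δ

/-- (ker) the kernel of a subtree of dimension more than 1/2 -/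
def S_ker : Prop := ∀ T : Set (List Bool), IsSubtree T → 1 / 2 < dimH (canopy T) →
  ∃ K ⊆ T, Good K ∧ dimH (canopy T \ canopy K) ≤ 1 / 2

/-- (perf) a countable intersection of relatively open dense subsets of a closed set without
isolated points has cardinality continuum -/
def S_perf : Prop := ∀ (C : Set Seq) (U : ℕ → Set Seq), IsClosed C → C.Nonempty →
  (∀ x ∈ C, ∀ n, ∃ y ∈ C, y ≠ x ∧ pre y n = pre x n) →
  (∀ m, IsOpen (U m)) → (∀ m, ∀ x ∈ C, ∀ n, ∃ y ∈ C, y ∈ U m ∧ pre y n = pre x n) →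
  𝔠 ≤ #(↥(C ∩ ⋂ m, U m))

/-- (iso) the dichotomy: a strategy of the player of parity `j` in a good kernel either has a play
along which the opponent has finitely many choices, or its plays form a perfect set -/
def S_iso : Prop := ∀ (K : Set (List Bool)) (j : ℕ) (s : List Bool → Bool), Good K → j < 2 →
  IsStrategy K j s → (∀ p ∈ plays K j s, p ∉ Pset K (1 - j)) →
  (plays K j s).Nonempty ∧ IsClosed (plays K j s) ∧
    (∀ x ∈ plays K j s, ∀ n, ∃ y ∈ plays K j s, y ≠ x ∧ pre y n = pre x n)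

/-- (dG) density of the approximations of `Gset (1 - j) ℓ` in the plays of a strategy -/
def S_dG : Prop := ∀ (K : Set (List Bool)) (j : ℕ) (s ℓ : List Bool → Bool), Good K → j < 2 →
  IsStrategy K j s → IsStrategy K (1 - j) ℓ →
  ∀ m, ∀ x ∈ plays K j s, ∀ N, ∃ y ∈ plays K j s, pre y N = pre x N ∧
    ∃ n, m ≤ n ∧ ∀ i, n ≤ i → i < n ^ 2 → i % 2 = 1 - j → y i = ℓ (pre y i)

/-- (dP) density of the approximations of the complement of `Pset K j` in the plays of a strategy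
of the player of parity `j` -/
def S_dP : Prop := ∀ (K : Set (List Bool)) (j : ℕ) (s : List Bool → Bool), Good K → j < 2 →
  IsStrategy K j s →
  ∀ m, ∀ x ∈ plays K j s, ∀ N, ∃ y ∈ plays K j s, pre y N = pre x N ∧
    ∃ i, m ≤ i ∧ i % 2 = j ∧ Branch K (pre y i)

/-- (many) the plays needed in the Bernstein construction -/
def S_many : Prop := ∀ (K : Set (List Bool)) (j : ℕ) (s ℓ : List Bool → Bool), Good K → j < 2 →
  IsStrategy K j s → IsStrategy K (1 - j) ℓ →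
  (∃ p ∈ plays K j s, p ∈ Pset K (1 - j)) ∨
    𝔠 ≤ #(↥((plays K j s ∩ Gset (1 - j) ℓ) \ Pset K j))

/-- (inj) injective choice -/
def S_inj : Prop := ∀ {I R : Type}, #I ≤ 𝔠 → ∀ G : I → Set R, (∀ i, 𝔠 ≤ #(G i)) →
  ∃ f : I → R, Function.Injective f ∧ ∀ i, f i ∈ G i

end R624BT
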