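import Pool.Agent.R624.BT.Stm

/-!
# Binary subtrees (MP_decccb_lc): pieces (pos) and (sub)
-/

set_option autoImplicit false

namespace R624BT

open Set
open scoped ENNReal NNReal

/-- the cost of a finite set as a `tsum` -/
lemma tsum_cost (t : ℝ) (F : Finset (List Bool)) :
    ∑' τ : (↑F : Set (List Bool)),
      ENNReal.ofReal ((1 / 2 : ℝ) ^ (t * ((τ : List Bool).length : ℝ))) =
      ENNReal.ofReal (cost t F) := by
  have h1 := Finset.tsum_subtype' F
    (fun τ : List Bool => ENNReal.ofReal ((1 / 2 : ℝ) ^ (t * (τ.length : ℝ))))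
  rw [h1, cost, ENNReal.ofReal_sum_of_nonneg]
  intro τ _
  positivity

theorem s_pos (hnet : S_net) : S_pos := by
  intro t E ht hE
  by_contra hcon
  push Not at hcon
  have hcov : ∀ c : ℝ, 0 < c → ∃ F : Finset (List Bool), Covers E F ∧ cost t F < c := by
    intro c hc
    have h1 : ¬ ∀ F : Finset (List Bool), Covers E F → c ≤ cost t F := hcon c hc
    push Not at h1
    exact h1
  have h2 : dimH E ≤ t := by
    refine hnet t E 1 ENNReal.one_ne_top ?_
    intro m
    obtain ⟨F, hF1, hF2⟩ := hcov (min 1 ((1 / 2 : ℝ) ^ ((t : ℝ) * (m : ℝ))))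
      (lt_min one_pos (by positivity))
    refine ⟨↑F, ?_, ?_, ?_⟩
    · intro τ hτ
      by_contra hlt
      push Not at hlt
      have h3 : (1 / 2 : ℝ) ^ ((t : ℝ) * (τ.length : ℝ)) ≤ cost t F := by
        unfold cost
        apply Finset.single_le_sum (f := fun τ : List Bool =>
          (1 / 2 : ℝ) ^ ((t : ℝ) * (τ.length : ℝ))) _ (Finset.mem_coe.1 hτ)
        intro i _
        positivity
      have h4 : (1 / 2 : ℝ) ^ ((t : ℝ) * (m : ℝ)) ≤ (1 / 2 : ℝ) ^ ((t : ℝ) * (τ.length : ℝ)) := by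
        apply Real.rpow_le_rpow_of_exponent_ge (by norm_num) (by norm_num)
        apply mul_le_mul_of_nonneg_left _ t.2
        exact_mod_cast hlt.le
      have h5 := hF2.trans_le (min_le_right _ _)
      linarith
    · intro x hx
      obtain ⟨τ, hτ, hxτ⟩ := hF1 x hx
      exact ⟨τ, Finset.mem_coe.2 hτ, hxτ⟩
    · rw [tsum_cost]
      have h5 := hF2.trans_le (min_le_left _ _)
      calc ENNReal.ofReal (cost t F) ≤ ENNReal.ofReal 1 := ENNReal.ofReal_le_ofReal h5.le
        _ = 1 := ENNReal.ofReal_one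
  exact absurd (hE.trans_le h2) (lt_irrefl _)

theorem s_sub (hnet : S_net) (hlow : S_low) (hpos : S_pos) (hmin : S_min) (hfine : S_fine) :
    S_sub := by
  intro t E ht hE hlt
  obtain ⟨c, hc, hLB⟩ := hpos t E ht hlt
  obtain ⟨D, hDE, hD⟩ := hmin t E c hE hLB
  refine ⟨D, hDE, hD.1, le_antisymm ?_ ?_⟩
  · refine hnet t D (ENNReal.ofReal (c + 1)) ENNReal.ofReal_ne_top ?_
    intro m
    obtain ⟨F, hF1, hF2, hF3⟩ := hfine t D c (by exact_mod_cast ht) hc hD m 1 one_pos
    refine ⟨↑F, ?_, ?_, ?_⟩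
    · intro τ hτ
      exact hF2 τ (Finset.mem_coe.1 hτ)
    · intro x hx
      obtain ⟨τ, hτ, hxτ⟩ := hF1 x hx
      exact ⟨τ, Finset.mem_coe.2 hτ, hxτ⟩
    · rw [tsum_cost]
      exact ENNReal.ofReal_le_ofReal hF3
  · exact hlow t D c ht hD.1 hc hD.2.1

end R624BT
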